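import Pool.Agent.Q50.SR.CDefs

/-!
# Minors and torsors: definitions

In the intended use `K` is the field of the algebraic numbers and `P` is the period matrix of a motive
over `K` which is a direct sum, with coefficients in `K`, of the motives `W_σ`, in bases over `K`
adapted to this sum. The indices `i` with colour `c i = σ` are the basis of `W_σ`. The matrices
`P.toSquareBlock c σ` are the period matrices of the `W_σ`.
-/

namespace Pool.Agent.Q50.EX

open Pool.Agent.Q50.LR Pool.Agent.Q50.SR

/-- The minors with `k` rows of the matrix `M` are linearly independent over `K`. -/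
def IndependentMinors (K : Type) [Field K] [Algebra K ℂ] {I : Type} [LinearOrder I] (k : ℕ)
    (M : Matrix I I ℂ) : Prop :=
  LinearIndependent K fun s : (Fin k ↪o I) × (Fin k ↪o I) => (M.submatrix s.1 s.2).det

/-- The products of an entry of `M` and an entry of `M'` are linearly independent over `K`. -/
def IndependentProducts (K : Type) [Field K] [Algebra K ℂ] {I J : Type} (M : Matrix I I ℂ)
    (M' : Matrix J J ℂ) : Prop :=
  LinearIndependent K fun s : (I × I) × (J × J) => M s.1.1 s.1.2 * M' s.2.1 s.2.2

/-- The matrix `M` is a similitude for symmetric forms over `K`. -/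
def IsSimilitude (K : Type) [Field K] [Algebra K ℂ] {I : Type} [Fintype I] [DecidableEq I]
    (M : Matrix I I ℂ) : Prop :=
  ∃ (Q Q' : Matrix I I K) (r : ℂ), Q.transpose = Q ∧ Q.det ≠ 0 ∧
    M.transpose * Q.map (algebraMap K ℂ) * M = r • Q'.map (algebraMap K ℂ)

/-- The number of the indices of the colour `σ`. -/
def size {n e : ℕ} (c : Fin n → Fin e) (σ : Fin e) : ℕ := Fintype.card {i : Fin n // c i = σ}

/-- The group contains the product of the special linear groups of the colours. -/
def ContainsColouredSL {n e : ℕ} (c : Fin n → Fin e) (H : Subgroup (GL (Fin n) ℂ)) : Prop :=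
  ∀ g : GL (Fin n) ℂ, Respects c (g : Matrix (Fin n) (Fin n) ℂ) →
    (∀ σ, ((g : Matrix (Fin n) (Fin n) ℂ).toSquareBlock c σ).det = 1) → g ∈ H

end Pool.Agent.Q50.EX
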