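import Pool.Agent.Q50.EX.Ext
import Pool.Agent.Q50.EX.Defs
import Pool.Agent.Q50.SR.Lie
import Pool.Agent.Q50.SR.Gen2

/-!
# Minors and torsors: the statements of the lemmas
-/

set_option linter.unusedSectionVars false

namespace Pool.Agent.Q50.EX

open Module Pool.Agent.Q50.LR Pool.Agent.Q50.SR Kronecker

/-- the logarithmic derivative of `M`, `N` being the inverse of `M` -/
noncomputable def lg {K : Type} [Field K] [Algebra K ℂ] (δ : Derivation K ℂ ℂ) {I : Type}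
    [Fintype I] (M N : Matrix I I ℂ) : Matrix I I ℂ := (M.map δ) * N

/-- a chain of vectors -/
structure Chain {K W ι : Type} [Field K] [AddCommGroup W] [Module K W]
    (e f : ι → Module.End K W) (w : ℕ → W) (l : ℕ → ι) (p : ℕ → K) (m : ℕ) : Prop where
  indep : LinearIndependent K fun j : Fin m => w j
  span : Submodule.span K (Set.range fun j : Fin m => w j) = ⊤
  f_same : ∀ j, j + 1 < m → f (l j) (w j) = w (j + 1)
  f_ne : ∀ j, j + 1 < m → ∀ i, i ≠ l j → f i (w j) = 0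
  f_last : ∀ i, f i (w (m - 1)) = 0
  e_same : ∀ j, j + 1 < m → e (l j) (w (j + 1)) = p j • w j
  e_ne : ∀ j, j + 1 < m → ∀ i, i ≠ l j → e i (w (j + 1)) = 0
  e_zero : ∀ i, e i (w 0) = 0
  p_ne : ∀ j, j + 1 < m → p j ≠ 0

/-- J1: a subspace of the exterior power which is stable under the components of the logarithmic
derivatives is zero or everything, if the minors are linearly independent. -/
def S1 : Prop := ∀ (K : Type) [Field K] [Algebra K ℂ] [IsAlgClosed K] (I : Type) [Fintype I]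
  [LinearOrder I] (M N : Matrix I I ℂ) (_ : M * N = 1) (k : ℕ) (_ : IndependentMinors K k M)
  (U : Submodule K (ExteriorAlgebra K (I → K))) (_ : U ≤ ⋀[K]^k (I → K))
  (_ : ∀ (δ : Derivation K ℂ ℂ) (ν : ℂ →ₗ[K] K), ∀ ξ ∈ U,
    D (Matrix.toLin' ((lg δ M N).map ν)) ξ ∈ U), U = ⊥ ∨ U = ⋀[K]^k (I → K)

/-- J2a: the top exterior power. -/
def S2a : Prop := ∀ (K : Type) [Field K] (W : Type) [AddCommGroup W] [Module K W]
  [FiniteDimensional K W] (z : Module.End K W) (ξ : ExteriorAlgebra K W),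
  ξ ∈ ⋀[K]^(finrank K W) W → D z ξ = LinearMap.trace K W z • ξ

/-- J2b: duality. -/
def S2b : Prop := ∀ (K : Type) [Field K] (W : Type) [AddCommGroup W] [Module K W]
  [FiniteDimensional K W] (L : Submodule K (Module.End K W)) (k : ℕ),
  (∀ x ∈ L, LinearMap.trace K W x = 0) → k ≤ finrank K W → IrrOn L k →
    IrrOn L (finrank K W - k)

/-- J3: the labels of a chain. -/
def S3 : Prop := ∀ (K ι : Type) [Field K] [CharZero K] [DecidableEq ι] (M : ℕ) (l : ℕ → ι)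
  (p : ℕ → K) (A : ι → ι → K)
  (_ : ∀ j < M, ∀ i, A (l j) i = (if l j = i then 2 * p j else 0) -
    (if 0 < j ∧ l (j - 1) = i then p (j - 1) else 0) -
    (if j + 1 < M ∧ l (j + 1) = i then p (j + 1) else 0))
  (_ : ∀ i, A i i = 2) (_ : ∀ j < M, p j ≠ 0) (_ : ∀ j, j + 2 < M → l j ≠ l (j + 2)),
  (∀ j < M, ∀ j' < M, l j = l j' → j = j') ∨
    (Even M ∧ ∀ j < M, l j = l (M - 1 - j) ∧ p j = p (M - 1 - j))

/-- J4: a chain with different labels. -/
def S4 : Prop := ∀ (K W ι : Type) [Field K] [AddCommGroup W] [Module K W] [FiniteDimensional K W]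
  (e f : ι → Module.End K W) (w : ℕ → W) (l : ℕ → ι) (p : ℕ → K) (m : ℕ)
  (_ : Chain e f w l p m) (_ : ∀ j j', j + 1 < m → j' + 1 < m → l j = l j' → j = j')
  (L : Submodule K (Module.End K W)) (_ : ∀ x ∈ L, ∀ y ∈ L, x * y - y * x ∈ L)
  (_ : ∀ i, e i ∈ L) (_ : ∀ i, f i ∈ L) (z : Module.End K W), LinearMap.trace K W z = 0 → z ∈ L

/-- J5: a palindromic chain. -/
def S5 : Prop := ∀ (K W ι : Type) [Field K] [CharZero K] [AddCommGroup W] [Module K W]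
  [FiniteDimensional K W] (e f : ι → Module.End K W) (w : ℕ → W) (l : ℕ → ι) (p : ℕ → K) (m : ℕ)
  (_ : Chain e f w l p m) (_ : Odd m)
  (_ : ∀ j, j + 1 < m → l j = l (m - 2 - j) ∧ p j = p (m - 2 - j)),
  ∃ B : W →ₗ[K] W →ₗ[K] K, (∀ u v, B u v = B v u) ∧ (∀ u, (∀ v, B u v = 0) → u = 0) ∧
    ∀ i u v, B (e i u) v + B u (e i v) = 0 ∧ B (f i u) v + B u (f i v) = 0

/-- J6: similitudes. -/
def S6 : Prop := ∀ (K : Type) [Field K] [Algebra K ℂ] [IsAlgClosed K] (I : Type) [Fintype I]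
  [DecidableEq I] (M N : Matrix I I ℂ) (_ : M * N = 1) (Q : Matrix I I K) (_ : Q.transpose = Q)
  (_ : Q.det ≠ 0) (_ : ∀ (δ : Derivation K ℂ ℂ) (ν : ℂ →ₗ[K] K), ∃ t : K,
    ((lg δ M N).map ν).transpose * Q + Q * (lg δ M N).map ν = t • Q), IsSimilitude K M

/-- J7: the commutant on a tensor product. -/
def S7 : Prop := ∀ (K : Type) [Field K] [Algebra K ℂ] [IsAlgClosed K] (I J : Type) [Fintype I]
  [DecidableEq I] [Fintype J] [DecidableEq J] (M N : Matrix I I ℂ) (M' N' : Matrix J J ℂ)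
  (_ : M * N = 1) (_ : M' * N' = 1) (_ : IndependentProducts K M M')
  (X : Matrix (I × J) (I × J) K)
  (_ : ∀ (δ : Derivation K ℂ ℂ) (ν : ℂ →ₗ[K] K),
    X * (((lg δ M N).map ν) ⊗ₖ (1 : Matrix J J K) + (1 : Matrix I I K) ⊗ₖ ((lg δ M' N').map ν)) =
    (((lg δ M N).map ν) ⊗ₖ (1 : Matrix J J K) + (1 : Matrix I I K) ⊗ₖ ((lg δ M' N').map ν)) * X),
  ∃ t : K, X = t • 1

/-- J8: two blocks. -/
def S8 : Prop := ∀ (K : Type) [Field K] [CharZero K] (I J : Type) [Fintype I]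
  [DecidableEq I] [Fintype J] [DecidableEq J] (T : Submodule K (Matrix I I K × Matrix J J K))
  (_ : ∀ a ∈ T, ∀ b ∈ T, a * b - b * a ∈ T)
  (_ : ∀ x : Matrix I I K, x.trace = 0 → ∃ y, (x, y) ∈ T)
  (_ : ∀ y : Matrix J J K, y.trace = 0 → ∃ x, (x, y) ∈ T)
  (_ : Fintype.card I = Fintype.card J → 2 ≤ Fintype.card I → ∀ X : Matrix (I × J) (I × J) K,
    (∀ a ∈ T, X * (a.1 ⊗ₖ (1 : Matrix J J K) + (1 : Matrix I I K) ⊗ₖ a.2) =
      (a.1 ⊗ₖ (1 : Matrix J J K) + (1 : Matrix I I K) ⊗ₖ a.2) * X) → ∃ t : K, X = t • 1)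
  (x : Matrix I I K) (y : Matrix J J K), x.trace = 0 → y.trace = 0 → (x, y) ∈ T

/-- J9: several blocks. -/
def S9 : Prop := ∀ (K : Type) [Field K] [CharZero K] (n e : ℕ) (c : Fin n → Fin e)
  (L : Submodule K (Matrix (Fin n) (Fin n) K)) (_ : ∀ x ∈ L, ∀ y ∈ L, x * y - y * x ∈ L)
  (_ : ∀ x ∈ L, Respects c x)
  (_ : ∀ σ, ∀ y : Matrix {i // c i = σ} {i // c i = σ} K, y.trace = 0 →
    ∃ x ∈ L, x.toSquareBlock c σ = y)
  (_ : ∀ σ τ, σ ≠ τ → ∀ y : Matrix {i // c i = σ} {i // c i = σ} K, y.trace = 0 →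
    ∃ x ∈ L, x.toSquareBlock c σ = y ∧ x.toSquareBlock c τ = 0)
  (x : Matrix (Fin n) (Fin n) K), Respects c x → (∀ σ, (x.toSquareBlock c σ).trace = 0) → x ∈ L

/-- J10: from the Lie algebra to the group. -/
def S10 : Prop := ∀ (K : Type) [Field K] [Algebra K ℂ] (n e : ℕ) (c : Fin n → Fin e)
  (H : Subgroup (GL (Fin n) ℂ)) (_ : IsAlgebraicGroup K H)
  (_ : ∀ Z : Matrix (Fin n) (Fin n) ℂ, Respects c Z → (∀ σ, (Z.toSquareBlock c σ).trace = 0) →
    Z ∈ LC H), ContainsColouredSL c H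

end Pool.Agent.Q50.EX
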