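import Pool.Agent.Q50.EX.Spec
import Pool.Agent.Q50.SR.Sgr
import Pool.Agent.Q50.SR.Odd
import Pool.Agent.Q50.SR.Per

/-!
# Minors and torsors: blocks
-/

set_option linter.unusedSectionVars false
set_option maxHeartbeats 4000000
set_option synthInstance.maxHeartbeats 400000

namespace Pool.Agent.Q50.EX

open Module Pool.Agent.Q50.LR Pool.Agent.Q50.SR

section blocks

variable {F : Type} [Field F] {n e : ℕ} {c : Fin n → Fin e}

theorem res_mul {A B : Matrix (Fin n) (Fin n) F} (hA : Respects c A) (hB : Respects c B) :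
    Respects c (A * B) := by
  intro i j hij
  rw [Matrix.mul_apply]
  refine Finset.sum_eq_zero fun k _ => ?_
  by_cases hk : c i = c k
  · rw [hB k j (by rw [← hk]; exact hij), mul_zero]
  · rw [hA i k hk, zero_mul]

theorem res_sub {A B : Matrix (Fin n) (Fin n) F} (hA : Respects c A) (hB : Respects c B) :
    Respects c (A - B) := fun i j hij => by
  rw [Matrix.sub_apply, hA i j hij, hB i j hij, sub_zero]

theorem res_add {A B : Matrix (Fin n) (Fin n) F} (hA : Respects c A) (hB : Respects c B) :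
    Respects c (A + B) := fun i j hij => by
  rw [Matrix.add_apply, hA i j hij, hB i j hij, add_zero]

theorem res_smul {A : Matrix (Fin n) (Fin n) F} (r : F) (hA : Respects c A) :
    Respects c (r • A) := fun i j hij => by
  rw [Matrix.smul_apply, hA i j hij, smul_zero]

theorem res_one : Respects c (1 : Matrix (Fin n) (Fin n) F) := fun i j hij =>
  Matrix.one_apply_ne fun h => hij (by rw [h])

theorem sum_class {M : Type} [AddCommMonoid M] (σ : Fin e) (f : Fin n → M)
    (hf : ∀ k, c k ≠ σ → f k = 0) : ∑ k, f k = ∑ k : {i // c i = σ}, f k := by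
  have h1 : ∑ k ∈ Finset.univ.filter (fun k => c k = σ), f k = ∑ k, f k := by
    refine Finset.sum_subset (Finset.filter_subset _ _) fun k _ hk => hf k fun h => hk ?_
    rw [Finset.mem_filter]
    exact ⟨Finset.mem_univ k, h⟩
  rw [← h1]
  exact Finset.sum_subtype _ (fun k => by simp) f

theorem block_mul {A B : Matrix (Fin n) (Fin n) F} (hA : Respects c A) (σ : Fin e) :
    (A * B).toSquareBlock c σ = A.toSquareBlock c σ * B.toSquareBlock c σ := by
  ext i j
  change (A * B) i j = _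
  rw [Matrix.mul_apply, Matrix.mul_apply,
    sum_class (c := c) σ (fun k => A i k * B k j) fun k hk => by
      rw [hA i k (by rw [i.2]; exact fun h => hk h.symm), zero_mul]]
  rfl

theorem block_one (σ : Fin e) : (1 : Matrix (Fin n) (Fin n) F).toSquareBlock c σ = 1 := by
  ext i j
  change (1 : Matrix (Fin n) (Fin n) F) i j = (1 : Matrix _ _ F) i j
  rw [Matrix.one_apply, Matrix.one_apply]
  exact if_congr Subtype.ext_iff.symm rfl rfl

/-- the block as a linear map -/
def bl (c : Fin n → Fin e) (σ : Fin e) :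
    Matrix (Fin n) (Fin n) F →ₗ[F] Matrix {i // c i = σ} {i // c i = σ} F where
  toFun := fun A => A.toSquareBlock c σ
  map_add' := fun _ _ => rfl
  map_smul' := fun _ _ => rfl

theorem bl_apply (σ : Fin e) (A : Matrix (Fin n) (Fin n) F) : bl c σ A = A.toSquareBlock c σ := rfl

theorem bl_bracket {A B : Matrix (Fin n) (Fin n) F} (hA : Respects c A) (hB : Respects c B)
    (σ : Fin e) : bl c σ (A * B - B * A) = bl c σ A * bl c σ B - bl c σ B * bl c σ A := by
  rw [map_sub]
  exact congrArg₂ _ (block_mul hA σ) (block_mul hB σ)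

theorem res_inv {P : GL (Fin n) F} (hP : Respects c (P : Matrix (Fin n) (Fin n) F)) :
    Respects c ((P⁻¹ : GL (Fin n) F) : Matrix (Fin n) (Fin n) F) := by
  have h1 : (P : Matrix (Fin n) (Fin n) F) * ((P⁻¹ : GL (Fin n) F) : Matrix (Fin n) (Fin n) F) =
      1 := P.mul_inv
  have h2 : ((P⁻¹ : GL (Fin n) F) : Matrix (Fin n) (Fin n) F) * (P : Matrix (Fin n) (Fin n) F) =
      1 := P.inv_mul
  let N : Matrix (Fin n) (Fin n) F := Matrix.of fun i j =>
    if c i = c j then ((P⁻¹ : GL (Fin n) F) : Matrix (Fin n) (Fin n) F) i j else 0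
  have h3 : (P : Matrix (Fin n) (Fin n) F) * N = 1 := by
    ext i j
    have h4 := congrFun (congrFun h1 i) j
    rw [Matrix.mul_apply] at h4 ⊢
    by_cases hij : c i = c j
    · rw [← h4]
      refine Finset.sum_congr rfl fun k _ => ?_
      change _ * (if c k = c j then _ else _) = _
      by_cases hk : c k = c j
      · rw [if_pos hk]
      · rw [if_neg hk, hP i k fun h => hk (h.symm.trans hij), zero_mul, zero_mul]
    · rw [Matrix.one_apply_ne fun h => hij (by rw [h])]
      refine Finset.sum_eq_zero fun k _ => ?_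
      change _ * (if c k = c j then _ else _) = _
      by_cases hk : c k = c j
      · rw [hP i k fun h => hij (h.trans hk), zero_mul]
      · rw [if_neg hk, mul_zero]
  have h4 : ((P⁻¹ : GL (Fin n) F) : Matrix (Fin n) (Fin n) F) = N := by
    calc ((P⁻¹ : GL (Fin n) F) : Matrix (Fin n) (Fin n) F)
        = ((P⁻¹ : GL (Fin n) F) : Matrix (Fin n) (Fin n) F) *
          ((P : Matrix (Fin n) (Fin n) F) * N) := by rw [h3, mul_one]
      _ = N := by rw [← mul_assoc, h2, one_mul]
  intro i j hij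
  rw [h4]
  exact if_neg hij

theorem block_inv {P : GL (Fin n) F} (hP : Respects c (P : Matrix (Fin n) (Fin n) F))
    (σ : Fin e) : (P : Matrix (Fin n) (Fin n) F).toSquareBlock c σ *
      ((P⁻¹ : GL (Fin n) F) : Matrix (Fin n) (Fin n) F).toSquareBlock c σ = 1 := by
  have h1 : (P : Matrix (Fin n) (Fin n) F) * ((P⁻¹ : GL (Fin n) F) : Matrix (Fin n) (Fin n) F) =
      1 := P.mul_inv
  rw [← block_mul hP, h1, block_one]

end blocks

section torsor

variable {K : Type} [Field K] [Algebra K ℂ] [IsAlgClosed K] {n e : ℕ} {c : Fin n → Fin e}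

/-- the matrices in the Lie algebra of the group which respect the colours -/
def LB (K : Type) [Field K] [Algebra K ℂ] (c : Fin n → Fin e) (H : Subgroup (GL (Fin n) ℂ)) :
    Submodule K (Matrix (Fin n) (Fin n) K) where
  carrier := {Z | Z ∈ LK K H ∧ Respects c Z}
  zero_mem' := ⟨Submodule.zero_mem _, fun _ _ _ => rfl⟩
  add_mem' := fun ha hb => ⟨Submodule.add_mem _ ha.1 hb.1, res_add ha.2 hb.2⟩
  smul_mem' := fun r _ ha => ⟨Submodule.smul_mem _ r ha.1, res_smul r ha.2⟩

theorem LB_bracket {H : Subgroup (GL (Fin n) ℂ)} : ∀ x ∈ LB K c H, ∀ y ∈ LB K c H,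
    x * y - y * x ∈ LB K c H := fun _ hx _ hy =>
  ⟨LK_bracket hx.1 hy.1, res_sub (res_mul hx.2 hy.2) (res_mul hy.2 hx.2)⟩

variable {P : GL (Fin n) ℂ} (hP : Respects c (P : Matrix (Fin n) (Fin n) ℂ))
  {H : Subgroup (GL (Fin n) ℂ)} (hH : IsAlgebraicGroup K H) (hPH : OnTorsor K H P)

/-- the block of the inverse -/
noncomputable def Nb (c : Fin n → Fin e) (P : GL (Fin n) ℂ) (σ : Fin e) :
    Matrix {i // c i = σ} {i // c i = σ} ℂ :=
  ((P⁻¹ : GL (Fin n) ℂ) : Matrix (Fin n) (Fin n) ℂ).toSquareBlock c σ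

/-- the block -/
def Mb (c : Fin n → Fin e) (P : GL (Fin n) ℂ) (σ : Fin e) :
    Matrix {i // c i = σ} {i // c i = σ} ℂ :=
  (P : Matrix (Fin n) (Fin n) ℂ).toSquareBlock c σ

include hP in
theorem Mb_mul (σ : Fin e) : Mb c P σ * Nb c P σ = 1 := block_inv hP σ

include hP in
theorem ld_res (δ : Derivation K ℂ ℂ) : Respects c (ld δ P) := by
  refine res_mul (fun i j hij => ?_) (res_inv hP)
  change δ ((P : Matrix (Fin n) (Fin n) ℂ) i j) = 0
  rw [hP i j hij, map_zero]

include hP hH hPH in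
theorem ld_mem_LB (δ : Derivation K ℂ ℂ) (ν : ℂ →ₗ[K] K) : (ld δ P).map ν ∈ LB K c H := by
  refine ⟨comp_mem_LK hH (ld_mem_LC hH hPH δ) ν, fun i j hij => ?_⟩
  rw [Matrix.map_apply, ld_res hP δ i j hij, map_zero]

include hP in
theorem bl_ld (δ : Derivation K ℂ ℂ) (ν : ℂ →ₗ[K] K) (σ : Fin e) :
    bl c σ ((ld δ P).map ν) = (lg δ (Mb c P σ) (Nb c P σ)).map ν := by
  have h1 : Respects c (dm δ (P : Matrix (Fin n) (Fin n) ℂ)) := fun i j hij => by
    change δ ((P : Matrix (Fin n) (Fin n) ℂ) i j) = 0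
    rw [hP i j hij, map_zero]
  have h2 := block_mul (B := ((P⁻¹ : GL (Fin n) ℂ) : Matrix (Fin n) (Fin n) ℂ)) h1 σ
  have h3 : bl c σ ((ld δ P).map ν) = ((ld δ P).toSquareBlock c σ).map ν := rfl
  rw [h3, ld, h2]
  rfl

end torsor

end Pool.Agent.Q50.EX
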