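import Pool.Agent.Q50.EX.Chn6
import Pool.Agent.Q50.EX.Asm1
import Pool.Agent.Q61.EX.Chn
import Pool.Agent.Q191.EX.J3
import Pool.Agent.Q237.EX.Core
import Pool.Agent.Q75.EX.J8
import Pool.Agent.Q75.EX.J9

/-!
# Minors and torsors: one block
-/

set_option linter.unusedSectionVars false
set_option maxHeartbeats 4000000
set_option synthInstance.maxHeartbeats 400000

namespace Pool.Agent.Q50.EX

open Module Pool.Agent.Q50.LR Pool.Agent.Q50.SR

/-- a Lie algebra of endomorphisms of trace zero which is irreducible on the exterior powers contains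
all of them, unless it is orthogonal -/
theorem sl_or {K W : Type} [Field K] [CharZero K] [IsAlgClosed K] [AddCommGroup W]
    [Module K W] [FiniteDimensional K W] (hm : 2 ≤ finrank K W)
    {L : Submodule K (Module.End K W)} (hL : ∀ x ∈ L, ∀ y ∈ L, x * y - y * x ∈ L)
    (htr : ∀ x ∈ L, LinearMap.trace K W x = 0)
    (hirr : ∀ k, 1 ≤ k → k < finrank K W → IrrOn L k) :
    (∀ z : Module.End K W, LinearMap.trace K W z = 0 → z ∈ L) ∨
    (Odd (finrank K W) ∧ ∃ B : W →ₗ[K] W →ₗ[K] K, (∀ u v, B u v = B v u) ∧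
      (∀ u, (∀ v, B u v = 0) → u = 0) ∧ ∀ x ∈ L, ∀ u v, B (x u) v + B u (x v) = 0) := by
  obtain ⟨ι, _, e, f, w, l, p, A, hc, hA, hl2, hA2, he, hf, hgen⟩ := exists_chain hm hL htr hirr
  rcases Pool.Agent.Q191.EX.s3 K ι (finrank K W - 1) l p A hA hA2
    (fun j hj => hc.p_ne j (by omega)) hl2 with h1 | ⟨h1, h2⟩
  · left
    intro z hz
    exact Pool.Agent.Q61.EX.s4 K W ι e f w l p _ hc (fun j j' hj hj' h =>
      h1 j (by omega) j' (by omega) h) L hL he hf z hz
  · right
    have hodd : Odd (finrank K W) := by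
      obtain ⟨t, ht⟩ := h1
      exact ⟨t, by omega⟩
    obtain ⟨B, hB1, hB2, hB3⟩ := Pool.Agent.Q61.EX.s5 K W ι e f w l p _ hc hodd
      (fun j hj => by
        have h3 := h2 j (by omega)
        have h4 : finrank K W - 1 - 1 - j = finrank K W - 2 - j := by omega
        rwa [h4] at h3)
    refine ⟨hodd, B, hB1, hB2, ?_⟩
    let L' : Submodule K (Module.End K W) :=
      { carrier := {x | ∀ u v, B (x u) v + B u (x v) = 0}
        zero_mem' := fun u v => by
          rw [LinearMap.zero_apply, LinearMap.zero_apply, map_zero, map_zero,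
            LinearMap.zero_apply, add_zero]
        add_mem' := fun {x y} hx hy u v => by
          rw [LinearMap.add_apply, LinearMap.add_apply, map_add, map_add, LinearMap.add_apply]
          linear_combination hx u v + hy u v
        smul_mem' := fun r x hx u v => by
          rw [LinearMap.smul_apply, LinearMap.smul_apply, map_smul, map_smul,
            LinearMap.smul_apply, smul_eq_mul, smul_eq_mul]
          linear_combination r * hx u v }
    have h3 : L ≤ L' := hgen L' (fun x hx y hy u v => by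
        simp only [LinearMap.sub_apply, Module.End.mul_apply, map_sub]
        linear_combination hx (y u) v - hy u (x v) - hy (x u) v + hx u (y v))
      (fun i u v => (hB3 i u v).1) fun i u v => (hB3 i u v).2
    exact fun x hx => h3 hx

section one

variable {K : Type} [Field K] [Algebra K ℂ] [IsAlgClosed K] {I : Type} [Fintype I]
  [LinearOrder I]

/-- the trace zero part -/
noncomputable def tz (K I : Type) [Field K] [Fintype I] [DecidableEq I] :
    Matrix I I K →ₗ[K] Module.End K (I → K) where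
  toFun := fun x => Matrix.toLin' x - ((Fintype.card I : K)⁻¹ * x.trace) • 1
  map_add' := fun x y => by
    rw [map_add, Matrix.trace_add]
    module
  map_smul' := fun r x => by
    rw [map_smul, Matrix.trace_smul, RingHom.id_apply, smul_eq_mul]
    module

theorem tz_apply (x : Matrix I I K) : tz K I x =
    Matrix.toLin' x - ((Fintype.card I : K)⁻¹ * x.trace) • (1 : Module.End K (I → K)) := rfl

theorem tz_D {k : ℕ} (x : Matrix I I K) {ξ : ExteriorAlgebra K (I → K)}
    (hξ : ξ ∈ ⋀[K]^k (I → K)) : D (tz K I x) ξ = D (Matrix.toLin' x) ξ -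
      (((Fintype.card I : K)⁻¹ * x.trace) * k) • ξ := by
  rw [tz_apply, D_sub, D_smul, LinearMap.sub_apply, LinearMap.smul_apply, D_id hξ, smul_smul]

theorem tz_trace [CharZero K] (hI : 2 ≤ Fintype.card I) (x : Matrix I I K) :
    LinearMap.trace K (I → K) (tz K I x) = 0 := by
  rw [tz_apply]
  have h1 : (Fintype.card I : K) ≠ 0 := by
    rw [Nat.cast_ne_zero]
    omega
  rw [map_sub, map_smul, Matrix.trace_toLin'_eq, LinearMap.trace_one,
    Module.finrank_fintype_fun_eq_card, smul_eq_mul]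
  field_simp
  ring

theorem tz_bracket (x y : Matrix I I K) :
    tz K I x * tz K I y - tz K I y * tz K I x = tz K I (x * y - y * x) := by
  rw [tz_apply, tz_apply, tz_apply, Matrix.trace_sub, Matrix.trace_mul_comm x y, sub_self, mul_zero, zero_smul, sub_zero,
    map_sub, Matrix.toLin'_mul, Matrix.toLin'_mul]
  change _ = Matrix.toLin' x * Matrix.toLin' y - Matrix.toLin' y * Matrix.toLin' x
  simp only [sub_mul, mul_sub, smul_mul_assoc, mul_smul_comm, one_mul, mul_one]
  module

theorem irr_tz (h1 : S1) (M N : Matrix I I ℂ) (hMN : M * N = 1)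
    (hmin : ∀ k, 1 ≤ k → 2 * k ≤ Fintype.card I → IndependentMinors K k M)
    (L : Submodule K (Matrix I I K))
    (hlg : ∀ (δ : Derivation K ℂ ℂ) (ν : ℂ →ₗ[K] K), (lg δ M N).map ν ∈ L)
    (k : ℕ) (hk1 : 1 ≤ k) (hk2 : 2 * k ≤ Fintype.card I) : IrrOn (L.map (tz K I)) k := by
  intro U hU hst
  refine h1 K I M N hMN k (hmin k hk1 hk2) U hU ?_
  intro δ ν ξ hξ
  have h3 : D (tz K I ((lg δ M N).map ν)) ξ ∈ U := hst _ (Submodule.mem_map_of_mem (hlg δ ν)) ξ hξ
  rw [tz_D _ (hU hξ)] at h3
  have h5 := U.add_mem h3 (U.smul_mem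
    (((Fintype.card I : K)⁻¹ * ((lg δ M N).map ν).trace) * k) hξ)
  rw [sub_add_cancel] at h5
  exact h5

theorem skew_form {B : (I → K) →ₗ[K] (I → K) →ₗ[K] K} {x : Module.End K (I → K)}
    (hx : ∀ u v, B (x u) v + B u (x v) = 0) :
    (LinearMap.toMatrix' x).transpose * LinearMap.toMatrix₂' K B +
      LinearMap.toMatrix₂' K B * LinearMap.toMatrix' x = 0 := by
  have h5 : ∀ j, x (Pi.single j 1) =
      ∑ k, LinearMap.toMatrix' x k j • (Pi.single k 1 : I → K) := by
    intro j
    ext i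
    rw [Finset.sum_apply]
    simp [LinearMap.toMatrix'_apply, Pi.single_apply]
  ext i j
  rw [Matrix.add_apply, Matrix.mul_apply, Matrix.mul_apply, Matrix.zero_apply]
  have h6 := hx (Pi.single i 1) (Pi.single j 1)
  rw [h5 i, h5 j, map_sum, LinearMap.sum_apply, map_sum] at h6
  rw [← h6]
  congr 1
  · refine Finset.sum_congr rfl fun k _ => ?_
    rw [Matrix.transpose_apply, map_smul, LinearMap.smul_apply, LinearMap.toMatrix₂'_apply,
      smul_eq_mul]
  · refine Finset.sum_congr rfl fun k _ => ?_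
    rw [map_smul, LinearMap.toMatrix₂'_apply, smul_eq_mul, mul_comm]

theorem sim_of_form (M N : Matrix I I ℂ) (hMN : M * N = 1)
    {B : (I → K) →ₗ[K] (I → K) →ₗ[K] K} (hB1 : ∀ u v, B u v = B v u)
    (hB2 : ∀ u, (∀ v, B u v = 0) → u = 0)
    (hB3 : ∀ (δ : Derivation K ℂ ℂ) (ν : ℂ →ₗ[K] K) (u v : I → K),
      B (tz K I ((lg δ M N).map ν) u) v + B u (tz K I ((lg δ M N).map ν) v) = 0) :
    IsSimilitude K M := by
  refine Pool.Agent.Q237.EX.s6 K I M N hMN (LinearMap.toMatrix₂' K B) ?_ ?_ ?_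
  · ext i j
    rw [Matrix.transpose_apply, LinearMap.toMatrix₂'_apply, LinearMap.toMatrix₂'_apply, hB1]
  · have h5 : B.SeparatingLeft := fun u hu => hB2 u hu
    refine (LinearMap.separatingLeft_toLinearMap₂'_iff_det_ne_zero
      (M := LinearMap.toMatrix₂' K B)).1 ?_
    rw [Matrix.toLinearMap₂'_toMatrix']
    exact h5
  · intro δ ν
    have h5 := skew_form (hB3 δ ν)
    have h6 : LinearMap.toMatrix' (tz K I ((lg δ M N).map ν)) = (lg δ M N).map ν -
        ((Fintype.card I : K)⁻¹ * ((lg δ M N).map ν).trace) • 1 := by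
      rw [tz_apply, map_sub, map_smul, LinearMap.toMatrix'_toLin', LinearMap.toMatrix'_one]
    rw [h6, Matrix.transpose_sub, Matrix.transpose_smul, Matrix.transpose_one] at h5
    refine ⟨2 * ((Fintype.card I : K)⁻¹ * ((lg δ M N).map ν).trace), ?_⟩
    generalize (lg δ M N).map ν = Y at h5 ⊢
    generalize (Fintype.card I : K)⁻¹ * Y.trace = t at h5 ⊢
    rw [← sub_eq_zero, ← h5]
    simp only [sub_mul, mul_sub, smul_mul_assoc, mul_smul_comm, one_mul, mul_one]
    module

theorem oneCol (h1 : S1) (h2 : S2b) (M N : Matrix I I ℂ) (hMN : M * N = 1)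
    (hI : 2 ≤ Fintype.card I)
    (hmin : ∀ k, 1 ≤ k → 2 * k ≤ Fintype.card I → IndependentMinors K k M)
    (hodd : Odd (Fintype.card I) → 3 ≤ Fintype.card I → ¬ IsSimilitude K M)
    (L : Submodule K (Matrix I I K)) (hL : ∀ x ∈ L, ∀ y ∈ L, x * y - y * x ∈ L)
    (hlg : ∀ (δ : Derivation K ℂ ℂ) (ν : ℂ →ₗ[K] K), (lg δ M N).map ν ∈ L)
    (y : Matrix I I K) (hy : y.trace = 0) : y ∈ L := by
  have : CharZero K := (algebraMap K ℂ).charZero
  have hfr : finrank K (I → K) = Fintype.card I := Module.finrank_fintype_fun_eq_card K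
  have htr : ∀ x ∈ L.map (tz K I), LinearMap.trace K (I → K) x = 0 := by
    rintro _ ⟨x, _, rfl⟩
    exact tz_trace hI x
  have hbr : ∀ x ∈ L.map (tz K I), ∀ y ∈ L.map (tz K I), x * y - y * x ∈ L.map (tz K I) := by
    rintro _ ⟨x, hx, rfl⟩ _ ⟨y, hy, rfl⟩
    rw [tz_bracket]
    exact Submodule.mem_map_of_mem (hL x hx y hy)
  have hirr1 := irr_tz h1 M N hMN hmin L hlg
  have hirr : ∀ k, 1 ≤ k → k < finrank K (I → K) → IrrOn (L.map (tz K I)) k := by
    intro k hk1 hk2
    by_cases hk : 2 * k ≤ Fintype.card I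
    · exact hirr1 k hk1 hk
    · have h3 := h2 K (I → K) (L.map (tz K I)) (finrank K (I → K) - k) htr (Nat.sub_le _ _)
        (hirr1 _ (by omega) (by omega))
      have h4 : finrank K (I → K) - (finrank K (I → K) - k) = k := by omega
      rwa [h4] at h3
  have hsl : ∀ z : Module.End K (I → K), LinearMap.trace K (I → K) z = 0 →
      z ∈ L.map (tz K I) := by
    rcases sl_or (by omega) hbr htr hirr with h3 | ⟨h3, B, hB1, hB2, hB3⟩
    · exact h3
    · exfalso
      rw [hfr] at h3
      have h4 : 3 ≤ Fintype.card I := by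
        obtain ⟨t, ht⟩ := h3
        omega
      exact hodd h3 h4 (sim_of_form M N hMN hB1 hB2 fun δ ν =>
        hB3 _ (Submodule.mem_map_of_mem (hlg δ ν)))
  have hup : ∀ a : Matrix I I K, a.trace = 0 → ∃ s : K, a + s • 1 ∈ L := by
    intro a ha
    have h3 : LinearMap.trace K (I → K) (Matrix.toLin' a) = 0 := by
      rw [Matrix.trace_toLin'_eq, ha]
    obtain ⟨x, hx, hxa⟩ := hsl _ h3
    refine ⟨(Fintype.card I : K)⁻¹ * x.trace, ?_⟩
    have h4 : Matrix.toLin' (x - ((Fintype.card I : K)⁻¹ * x.trace) • 1) =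
        Matrix.toLin' a := by
      rw [← hxa, tz_apply, map_sub, map_smul, Matrix.toLin'_one]
      rfl
    have h5 := Matrix.toLin'.injective h4
    rw [← h5, sub_add_cancel]
    exact hx
  refine (Submodule.span_le.2 ?_) (Pool.Agent.Q75.EX.sl_perfect y hy)
  rintro _ ⟨a, b, ha, hb, rfl⟩
  obtain ⟨s, hs⟩ := hup a ha
  obtain ⟨t, ht⟩ := hup b hb
  have h3 := hL _ hs _ ht
  have h4 : (a + s • 1) * (b + t • 1) - (b + t • 1) * (a + s • 1) = a * b - b * a := by
    simp only [add_mul, mul_add, smul_mul_assoc, mul_smul_comm, one_mul, mul_one]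
    module
  rwa [h4] at h3

end one

end Pool.Agent.Q50.EX
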