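import Pool.Agent.Q50.EX.Asm2

/-!
# Minors and torsors: the groups
-/

set_option linter.unusedSectionVars false
set_option maxHeartbeats 4000000
set_option synthInstance.maxHeartbeats 400000

namespace Pool.Agent.Q50.EX

open Module Pool.Agent.Q50.LR Pool.Agent.Q50.SR Kronecker

section torsor

variable {K : Type} [Field K] [Algebra K ℂ] [IsAlgClosed K] {n e : ℕ} {c : Fin n → Fin e}
  {P : GL (Fin n) ℂ} (hP : Respects c (P : Matrix (Fin n) (Fin n) ℂ))
  {H : Subgroup (GL (Fin n) ℂ)} (hH : IsAlgebraicGroup K H) (hPH : OnTorsor K H P)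
  (hmin : ∀ σ, ∀ k, 1 ≤ k → 2 * k ≤ size c σ → IndependentMinors K k
    ((P : Matrix (Fin n) (Fin n) ℂ).toSquareBlock c σ))
  (hprod : ∀ σ τ, σ ≠ τ → size c σ = size c τ → 2 ≤ size c σ → IndependentProducts K
    ((P : Matrix (Fin n) (Fin n) ℂ).toSquareBlock c σ)
    ((P : Matrix (Fin n) (Fin n) ℂ).toSquareBlock c τ))
  (hodd : ∀ σ, Odd (size c σ) → 3 ≤ size c σ → ¬ IsSimilitude K
    ((P : Matrix (Fin n) (Fin n) ℂ).toSquareBlock c σ))

include hP hH hPH hmin hodd in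
theorem block_full (h1 : S1) (h2 : S2b) (σ : Fin e) (y : Matrix {i // c i = σ} {i // c i = σ} K)
    (hy : y.trace = 0) : ∃ x ∈ LB K c H, x.toSquareBlock c σ = y := by
  by_cases hσ : 2 ≤ size c σ
  · obtain ⟨x, hx, hxy⟩ := oneCol (K := K) h1 h2 (Mb c P σ) (Nb c P σ) (Mb_mul hP σ) hσ
      (fun k hk1 hk2 => hmin σ k hk1 hk2) (fun h3 h4 => hodd σ h3 h4)
      ((LB K c H).map (bl c σ))
      (by
        rintro _ ⟨x, hx, rfl⟩ _ ⟨y, hy, rfl⟩
        rw [← bl_bracket hx.2 hy.2]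
        exact Submodule.mem_map_of_mem (LB_bracket x hx y hy))
      (fun δ ν => by
        rw [← bl_ld hP]
        exact Submodule.mem_map_of_mem (ld_mem_LB hP hH hPH δ ν)) y hy
    exact ⟨x, hx, hxy⟩
  · refine ⟨0, Submodule.zero_mem _, ?_⟩
    have h3 : Subsingleton {i // c i = σ} := by
      rw [← Fintype.card_le_one_iff_subsingleton]
      unfold size at hσ
      omega
    ext i j
    have hij : j = i := Subsingleton.elim _ _
    subst hij
    change (0 : K) = y j j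
    have h4 : y.trace = y j j := by
      rw [Matrix.trace, Fintype.sum_eq_single j fun k hk => (hk (Subsingleton.elim _ _)).elim]
      rfl
    rw [← h4, hy]

include hP hH hPH hmin hprod hodd in
theorem pair_full (h1 : S1) (h2 : S2b) {σ τ : Fin e} (hστ : σ ≠ τ)
    (y : Matrix {i // c i = σ} {i // c i = σ} K) (hy : y.trace = 0) :
    ∃ x ∈ LB K c H, x.toSquareBlock c σ = y ∧ x.toSquareBlock c τ = 0 := by
  have : CharZero K := (algebraMap K ℂ).charZero
  let T := (LB K c H).map ((bl c σ).prod (bl c τ))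
  have h3 : (y, (0 : Matrix {i // c i = τ} {i // c i = τ} K)) ∈ T := by
    refine Pool.Agent.Q75.EX.J8 K {i // c i = σ} {i // c i = τ} T ?_ ?_ ?_ ?_ y 0 hy
      (Matrix.trace_zero _ _)
    · rintro _ ⟨a, ha, rfl⟩ _ ⟨b, hb, rfl⟩
      refine ⟨_, LB_bracket a ha b hb, ?_⟩
      rw [LinearMap.prod_apply, LinearMap.prod_apply, LinearMap.prod_apply]
      exact Prod.ext (bl_bracket ha.2 hb.2 σ) (bl_bracket ha.2 hb.2 τ)
    · intro x hx
      obtain ⟨z, hz, hzx⟩ := block_full hP hH hPH hmin hodd h1 h2 σ x hx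
      exact ⟨bl c τ z, z, hz, Prod.ext hzx rfl⟩
    · intro x hx
      obtain ⟨z, hz, hzx⟩ := block_full hP hH hPH hmin hodd h1 h2 τ x hx
      exact ⟨bl c σ z, z, hz, Prod.ext rfl hzx⟩
    · intro hc h2' X hX
      refine Pool.Agent.Q237.EX.s7 K {i // c i = σ} {i // c i = τ} (Mb c P σ) (Nb c P σ)
        (Mb c P τ) (Nb c P τ) (Mb_mul hP σ) (Mb_mul hP τ) (hprod σ τ hστ hc h2') X ?_
      intro δ ν
      have h4 := hX _ (Submodule.mem_map_of_mem (f := (bl c σ).prod (bl c τ))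
        (ld_mem_LB hP hH hPH δ ν))
      rw [LinearMap.prod_apply, Function.prod_apply, bl_ld hP, bl_ld hP] at h4
      exact h4
  obtain ⟨x, hx, hxy⟩ := h3
  exact ⟨x, hx, congrArg Prod.fst hxy, congrArg Prod.snd hxy⟩

include hP hH hPH hmin hprod hodd in
theorem sl_LC (h1 : S1) (h2 : S2b) (Z : Matrix (Fin n) (Fin n) ℂ) (hZ : Respects c Z)
    (htr : ∀ σ, (Z.toSquareBlock c σ).trace = 0) : Z ∈ LC H := by
  have : CharZero K := (algebraMap K ℂ).charZero
  rw [← ext_LK (K := K) hH]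
  intro ν
  refine (Pool.Agent.Q75.EX.J9 K n e c (LB K c H) LB_bracket (fun x hx => hx.2)
    (block_full hP hH hPH hmin hodd h1 h2)
    (fun σ τ hστ y hy => pair_full hP hH hPH hmin hprod hodd h1 h2 hστ y hy) (Z.map ν)
    (fun i j hij => ?_) fun σ => ?_).1
  · rw [Matrix.map_apply, hZ i j hij, map_zero]
  · have h3 : ((Z.map ν).toSquareBlock c σ).trace = ν (Z.toSquareBlock c σ).trace := by
      rw [Matrix.trace, Matrix.trace, map_sum]
      rfl
    rw [h3, htr, map_zero]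

include hP hH hPH hmin hprod hodd in
/-- **Minors and torsors.** -/
theorem main (h1 : S1) (h2 : S2b) (h10 : S10) : ContainsColouredSL c H ∧
    ((∀ i j, c i = c j) → Transcendental K (P : Matrix (Fin n) (Fin n) ℂ).det → ∀ g, g ∈ H) := by
  have hLC := sl_LC hP hH hPH hmin hprod hodd h1 h2
  have hSL := h10 K n e c H hH hLC
  refine ⟨hSL, fun hc htr g => ?_⟩
  by_cases hn : n = 0
  · subst hn
    have h3 : g = 1 := Units.ext (by ext i; exact i.elim0)
    rw [h3]
    exact one_mem _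
  have hnC : (n : ℂ) ≠ 0 := Nat.cast_ne_zero.2 hn
  obtain ⟨δ, hδ⟩ : ∃ δ : Derivation K ℂ ℂ, (ld δ P).trace ≠ 0 := by
    by_contra hcon
    push Not at hcon
    obtain ⟨r, hr⟩ := det_of_trace hcon
    rw [← hr] at htr
    exact htr (isAlgebraic_algebraMap r)
  have hres : ∀ Z : Matrix (Fin n) (Fin n) ℂ, Respects c Z := fun Z i j hij => (hij (hc i j)).elim
  have hblk : ∀ Z : Matrix (Fin n) (Fin n) ℂ, Z.trace = 0 → Z ∈ LC H := by
    intro Z hZ
    refine hLC Z (hres Z) fun σ => ?_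
    by_cases hσ : ∃ i, c i = σ
    · obtain ⟨i, hi⟩ := hσ
      rw [← hZ, Matrix.trace, Matrix.trace,
        sum_class (c := c) σ (fun k => Z.diag k) fun k hk => (hk ((hc k i).trans hi)).elim]
      rfl
    · have : IsEmpty {i // c i = σ} := ⟨fun i => hσ ⟨i.1, i.2⟩⟩
      exact Matrix.trace_eq_zero_of_isEmpty _
  have hone : (1 : Matrix (Fin n) (Fin n) ℂ) ∈ LC H := by
    have h3 := ld_mem_LC hH hPH δ
    have h4 : ld δ P - ((ld δ P).trace / n) • 1 ∈ LC H := by
      refine hblk _ ?_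
      rw [Matrix.trace_sub, Matrix.trace_smul, Matrix.trace_one, Fintype.card_fin, smul_eq_mul,
        div_mul_cancel₀ _ hnC, sub_self]
    have h5 := (LC H).sub_mem h3 h4
    rw [sub_sub_cancel] at h5
    have h6 := (LC H).smul_mem ((ld δ P).trace / n)⁻¹ h5
    rwa [smul_smul, inv_mul_cancel₀ (div_ne_zero hδ hnC), one_smul] at h6
  have hdet : (g : Matrix (Fin n) (Fin n) ℂ).det ≠ 0 :=
    ((Matrix.isUnit_iff_isUnit_det _).1 g.isUnit).ne_zero
  obtain ⟨z, hz⟩ := IsAlgClosed.exists_pow_nat_eq (g : Matrix (Fin n) (Fin n) ℂ).det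
    (Nat.pos_of_ne_zero hn)
  have hz0 : z ≠ 0 := by
    rintro rfl
    rw [zero_pow hn] at hz
    exact hdet hz.symm
  obtain ⟨h, hh, hhz⟩ := scalars_mem hH hone z hz0
  obtain ⟨h', hh', hhz'⟩ := scalars_mem hH hone z⁻¹ (inv_ne_zero hz0)
  have h3 : h * h' = 1 := by
    refine Units.ext ?_
    change (h : Matrix (Fin n) (Fin n) ℂ) * (h' : Matrix (Fin n) (Fin n) ℂ) = 1
    rw [hhz, hhz', smul_mul_smul_comm, mul_inv_cancel₀ hz0, one_smul, one_mul]
  have h4 : g = h * (h' * g) := by rw [← mul_assoc, h3, one_mul]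
  rw [h4]
  refine mul_mem hh (hSL _ (hres _) fun σ => ?_)
  have h5 : ((h' * g : GL (Fin n) ℂ) : Matrix (Fin n) (Fin n) ℂ).det = 1 := by
    change ((h' : Matrix (Fin n) (Fin n) ℂ) * (g : Matrix (Fin n) (Fin n) ℂ)).det = 1
    rw [hhz', Matrix.det_mul, Matrix.det_smul, Matrix.det_one, mul_one, Fintype.card_fin, ← hz,
      inv_pow, inv_mul_cancel₀ (pow_ne_zero n hz0)]
  by_cases hσ : ∃ i, c i = σ
  · obtain ⟨i, hi⟩ := hσ
    let ψ : {j // c j = σ} ≃ Fin n :=
      { toFun := fun j => j.1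
        invFun := fun j => ⟨j, (hc j i).trans hi⟩
        left_inv := fun _ => rfl
        right_inv := fun _ => rfl }
    have h6 : (((h' * g : GL (Fin n) ℂ) : Matrix (Fin n) (Fin n) ℂ).toSquareBlock c σ) =
        ((h' * g : GL (Fin n) ℂ) : Matrix (Fin n) (Fin n) ℂ).submatrix ψ ψ := rfl
    rw [h6, Matrix.det_submatrix_equiv_self, h5]
  · have : IsEmpty {i // c i = σ} := ⟨fun i => hσ ⟨i.1, i.2⟩⟩
    exact Matrix.det_isEmpty

end torsor

end Pool.Agent.Q50.EX
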