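import Pool.Agent.Q50.EX.Defs

/-!
# Minors and torsors: the determinants of the blocks
-/

namespace Pool.Agent.Q50.EX

/-- No monomial in the determinants of the blocks is algebraic over `K`. -/
def DeterminantsIndependent (K : Type) [Field K] [Algebra K ℂ] {n e : ℕ} (c : Fin n → Fin e)
    (M : Matrix (Fin n) (Fin n) ℂ) : Prop :=
  ∀ a : Fin e → ℤ, (∃ σ, a σ ≠ 0 ∧ size c σ ≠ 0) →
    Transcendental K (∏ σ, (M.toSquareBlock c σ).det ^ a σ)

end Pool.Agent.Q50.EX
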