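import Pool.Agent.Q50.EX.Asm3
import Pool.Agent.Q50.EX.Defs2
import Pool.Agent.Q50.SR.Crv
import Pool.Agent.Q50.SR.Jac

/-!
# Minors and torsors: the determinants
-/

set_option linter.unusedSectionVars false
set_option maxHeartbeats 4000000
set_option synthInstance.maxHeartbeats 400000

namespace Pool.Agent.Q50.EX

open Module Pool.Agent.Q50.LR Pool.Agent.Q50.SR

section jac

variable {K : Type} [Field K] [Algebra K ℂ] {I : Type} [Fintype I] [DecidableEq I]

theorem jacobiI (δ : Derivation K ℂ ℂ) {M L : Matrix I I ℂ} (h : M.map δ = L * M) :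
    δ M.det = L.trace * M.det := by
  let ψ : I ≃ Fin (Fintype.card I) := Fintype.equivFin I
  have h1 : dm δ (M.submatrix ψ.symm ψ.symm) =
      L.submatrix ψ.symm ψ.symm * M.submatrix ψ.symm ψ.symm := by
    rw [Matrix.submatrix_mul_equiv, ← h]
    rfl
  have h2 := jacobi δ h1
  rw [Matrix.det_submatrix_equiv_self] at h2
  rw [h2]
  congr 1
  exact Fintype.sum_equiv ψ.symm _ _ fun _ => rfl

theorem lg_mul_M (δ : Derivation K ℂ ℂ) {M N : Matrix I I ℂ} (h : M * N = 1) :
    M.map δ = lg δ M N * M := by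
  rw [lg, Matrix.mul_assoc, mul_eq_one_comm.1 h, Matrix.mul_one]

theorem delta_zpow (δ : Derivation K ℂ ℂ) {x : ℂ} (hx : x ≠ 0) (k : ℤ) :
    δ (x ^ k) = (k * (δ x / x)) * x ^ k := by
  rw [Derivation.leibniz_zpow, zpow_sub_one₀ hx, zsmul_eq_mul, smul_eq_mul]
  field_simp

theorem delta_prod (δ : Derivation K ℂ ℂ) {ι : Type} (s : Finset ι) {x : ι → ℂ}
    (hx : ∀ i, x i ≠ 0) (k : ι → ℤ) :
    δ (∏ i ∈ s, x i ^ k i) = (∑ i ∈ s, k i * (δ (x i) / x i)) * ∏ i ∈ s, x i ^ k i := by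
  classical
  induction s using Finset.induction_on with
  | empty => simp
  | insert i s hi ih =>
    rw [Finset.prod_insert hi, Finset.sum_insert hi, Derivation.leibniz, ih, delta_zpow δ (hx i),
      smul_eq_mul, smul_eq_mul]
    ring

end jac

/-- the matrices which are scalar on the colours -/
noncomputable def sc {n e : ℕ} (c : Fin n → Fin e) : (Fin e → ℂˣ) →* GL (Fin n) ℂ where
  toFun := fun t => ⟨Matrix.diagonal fun i => (t (c i) : ℂ),
    Matrix.diagonal fun i => (((t (c i))⁻¹ : ℂˣ) : ℂ), by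
      rw [Matrix.diagonal_mul_diagonal, ← Matrix.diagonal_one]
      congr 1
      funext i
      exact (t (c i)).mul_inv, by
      rw [Matrix.diagonal_mul_diagonal, ← Matrix.diagonal_one]
      congr 1
      funext i
      exact (t (c i)).inv_mul⟩
  map_one' := by
    refine Units.ext ?_
    change Matrix.diagonal (fun i => (((1 : Fin e → ℂˣ) (c i) : ℂˣ) : ℂ)) = 1
    rw [← Matrix.diagonal_one]
    rfl
  map_mul' := fun s t => by
    refine Units.ext ?_
    change Matrix.diagonal (fun i => (((s * t) (c i) : ℂˣ) : ℂ)) =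
      Matrix.diagonal (fun i => (s (c i) : ℂ)) * Matrix.diagonal (fun i => (t (c i) : ℂ))
    rw [Matrix.diagonal_mul_diagonal]
    rfl

theorem sc_coe {n e : ℕ} (c : Fin n → Fin e) (t : Fin e → ℂˣ) :
    (sc c t : Matrix (Fin n) (Fin n) ℂ) = Matrix.diagonal fun i => (t (c i) : ℂ) := rfl

/-- the monomial character -/
noncomputable def mch {e : ℕ} (T : Subgroup (Fin e → ℂˣ)) (s : Fin e →₀ ℕ) : T →* ℂ where
  toFun := fun t => ∏ σ, ((t : Fin e → ℂˣ) σ : ℂ) ^ s σ
  map_one' := by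
    refine Finset.prod_eq_one fun σ _ => ?_
    change (((1 : Fin e → ℂˣ) σ : ℂˣ) : ℂ) ^ s σ = 1
    rw [Pi.one_apply, Units.val_one, one_pow]
  map_mul' := fun t u => by
    rw [← Finset.prod_mul_distrib]
    refine Finset.prod_congr rfl fun σ _ => ?_
    rw [← mul_pow]
    rfl

section torus

variable {K : Type} [Field K] [Algebra K ℂ] {n e : ℕ} {c : Fin n → Fin e}
  {H : Subgroup (GL (Fin n) ℂ)}

/-- a proper algebraic subgroup of the torus is contained in the kernel of a character -/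
theorem exists_char (hH : IsAlgebraicGroup K H) {t₀ : Fin e → ℂˣ} (ht₀ : sc c t₀ ∉ H) :
    ∃ s s' : Fin e →₀ ℕ, (∃ σ, s σ ≠ s' σ ∧ size c σ ≠ 0) ∧ ∀ t : Fin e → ℂˣ, sc c t ∈ H →
      ∏ σ, (t σ : ℂ) ^ s σ = ∏ σ, (t σ : ℂ) ^ s' σ := by
  obtain ⟨S, hS⟩ := hH
  obtain ⟨f, hfS, hf⟩ : ∃ f ∈ S, MvPolynomial.aeval
      (fun p : Fin n × Fin n => sc c t₀ p.1 p.2) f ≠ 0 := by
    by_contra hcon
    push Not at hcon
    exact ht₀ ((hS _).2 hcon)
  let F : MvPolynomial (Fin e) K := MvPolynomial.aeval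
    (fun p : Fin n × Fin n => if p.1 = p.2 then MvPolynomial.X (c p.1) else 0) f
  have hF : ∀ t : Fin e → ℂˣ, MvPolynomial.aeval (fun σ => (t σ : ℂ)) F =
      MvPolynomial.aeval (fun p : Fin n × Fin n => sc c t p.1 p.2) f := by
    intro t
    have h1 : (MvPolynomial.aeval (R := K) (fun σ => (t σ : ℂ))).comp (MvPolynomial.aeval
        (fun p : Fin n × Fin n => if p.1 = p.2 then MvPolynomial.X (c p.1) else 0)) =
        MvPolynomial.aeval (fun p : Fin n × Fin n => sc c t p.1 p.2) := by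
      refine MvPolynomial.algHom_ext fun p => ?_
      rw [AlgHom.comp_apply, MvPolynomial.aeval_X, MvPolynomial.aeval_X]
      change _ = (sc c t : Matrix (Fin n) (Fin n) ℂ) p.1 p.2
      rw [sc_coe]
      by_cases hp : p.1 = p.2
      · rw [if_pos hp, MvPolynomial.aeval_X, ← hp, Matrix.diagonal_apply_eq]
      · rw [if_neg hp, map_zero, Matrix.diagonal_apply_ne _ hp]
    exact congrArg (fun φ => φ f) h1
  have hexp : ∀ t : Fin e → ℂˣ, MvPolynomial.aeval (fun σ => (t σ : ℂ)) F =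
      ∑ s ∈ F.support, algebraMap K ℂ (F.coeff s) * ∏ σ, (t σ : ℂ) ^ s σ := fun t => by
    rw [MvPolynomial.aeval_def, MvPolynomial.eval₂_eq']
  let T : Subgroup (Fin e → ℂˣ) := H.comap (sc c)
  obtain ⟨s, s', hss, hχ⟩ : ∃ s s' : Fin e →₀ ℕ, s ≠ s' ∧ mch T s = mch T s' := by
    by_contra hcon
    push Not at hcon
    have hli := (linearIndependent_monoidHom T ℂ).comp (fun s : F.support => mch T s)
      (fun s s' h => by
        by_contra hne
        exact hcon s s' (fun h' => hne (Subtype.ext h')) h)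
    have h1 := Fintype.linearIndependent_iff.1 hli (fun s => algebraMap K ℂ (F.coeff s)) (by
      funext t
      rw [Finset.sum_apply, Pi.zero_apply]
      have h2 : MvPolynomial.aeval (fun σ => ((t : Fin e → ℂˣ) σ : ℂ)) F = 0 := by
        rw [hF]
        exact (hS _).1 t.2 f hfS
      rw [hexp, ← Finset.sum_coe_sort] at h2
      exact h2)
    refine hf ?_
    rw [← hF, hexp]
    refine Finset.sum_eq_zero fun s hs => ?_
    rw [h1 ⟨s, hs⟩, zero_mul]
  have hker : ∀ t : Fin e → ℂˣ, sc c t ∈ H →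
      ∏ σ, (t σ : ℂ) ^ s σ = ∏ σ, (t σ : ℂ) ^ s' σ := fun t ht =>
    congrArg (fun χ : T →* ℂ => χ ⟨t, ht⟩) hχ
  refine ⟨s, s', ?_, hker⟩
  obtain ⟨σ, hσ⟩ : ∃ σ, s σ ≠ s' σ := by
    by_contra hcon
    push Not at hcon
    exact hss (Finsupp.ext hcon)
  refine ⟨σ, hσ, fun hsz => hσ ?_⟩
  let t : Fin e → ℂˣ := Function.update 1 σ (Units.mk0 2 two_ne_zero)
  have h1 : sc c t = 1 := by
    refine Units.ext ?_
    rw [sc_coe]
    change _ = (1 : Matrix (Fin n) (Fin n) ℂ)
    rw [← Matrix.diagonal_one]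
    congr 1
    funext i
    have hi : c i ≠ σ := by
      intro hi
      have : Nonempty {j // c j = σ} := ⟨⟨i, hi⟩⟩
      exact Fintype.card_ne_zero hsz
    change ((Function.update (1 : Fin e → ℂˣ) σ (Units.mk0 2 two_ne_zero) (c i) : ℂˣ) : ℂ) = 1
    rw [Function.update_of_ne hi]
    rfl
  have h2 := hker t (by rw [h1]; exact one_mem _)
  have h3 : ∀ r : Fin e →₀ ℕ, ∏ τ, (t τ : ℂ) ^ r τ = 2 ^ r σ := by
    intro r
    rw [Finset.prod_eq_single σ]
    · change ((Function.update (1 : Fin e → ℂˣ) σ (Units.mk0 2 two_ne_zero) σ : ℂˣ) : ℂ) ^ _ = _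
      rw [Function.update_self]
      rfl
    · intro τ _ hτ
      change ((Function.update (1 : Fin e → ℂˣ) σ (Units.mk0 2 two_ne_zero) τ : ℂˣ) : ℂ) ^ _ = 1
      rw [Function.update_of_ne hτ]
      exact one_pow _
    · intro h
      exact absurd (Finset.mem_univ σ) h
  rw [h3, h3] at h2
  have h4 : (2 : ℕ) ^ s σ = 2 ^ s' σ := by exact_mod_cast h2
  exact Nat.pow_right_injective le_rfl h4

/-- the block scalar matrices in the Lie algebra give elements of the torus -/
theorem sc_exp_mem (hH : IsAlgebraicGroup K H) {τ : Fin e → ℂ}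
    (h : Matrix.diagonal (fun i => τ (c i)) ∈ LC H) (z : ℂ) :
    sc c (fun σ => Units.mk0 (Complex.exp (z * τ σ)) (Complex.exp_ne_zero _)) ∈ H := by
  refine curve hH h (u := fun z => Matrix.diagonal fun i => Complex.exp (z * τ (c i)))
    (fun z i j => ?_) ?_ z rfl
  · by_cases hij : i = j
    · subst hij
      rw [Matrix.diagonal_mul_diagonal, Matrix.diagonal_apply_eq]
      simp only [Matrix.diagonal_apply_eq]
      have h1 : HasDerivAt (fun z : ℂ => z * τ (c i)) (1 * τ (c i)) z :=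
        (hasDerivAt_id z).mul_const _
      have h2 := h1.cexp
      rwa [one_mul, mul_comm (Complex.exp _)] at h2
    · rw [Matrix.diagonal_mul_diagonal, Matrix.diagonal_apply_ne _ hij]
      simp only [Matrix.diagonal_apply_ne _ hij]
      exact hasDerivAt_const z 0
  · simp only [zero_mul, Complex.exp_zero, Matrix.diagonal_one]

theorem char_zero {s s' : Fin e →₀ ℕ} (hker : ∀ t : Fin e → ℂˣ, sc c t ∈ H →
      ∏ σ, (t σ : ℂ) ^ s σ = ∏ σ, (t σ : ℂ) ^ s' σ) (hH : IsAlgebraicGroup K H) {τ : Fin e → ℂ}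
    (h : Matrix.diagonal (fun i => τ (c i)) ∈ LC H) :
    ∑ σ, ((s σ : ℤ) - (s' σ : ℤ) : ℤ) * τ σ = 0 := by
  have h1 : ∀ z : ℂ, Complex.exp (z * ∑ σ, ((s σ : ℤ) - (s' σ : ℤ) : ℤ) * τ σ) = 1 := by
    intro z
    have h2 := hker _ (sc_exp_mem hH h z)
    have h3 : ∀ r : Fin e →₀ ℕ, ∏ σ, ((Units.mk0 (Complex.exp (z * τ σ))
        (Complex.exp_ne_zero _) : ℂˣ) : ℂ) ^ r σ = Complex.exp (z * ∑ σ, r σ * τ σ) := by
      intro r
      rw [Finset.mul_sum, Complex.exp_sum]
      refine Finset.prod_congr rfl fun σ _ => ?_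
      rw [Units.val_mk0, ← Complex.exp_nat_mul]
      congr 1
      ring
    rw [h3, h3] at h2
    have h4 : z * ∑ σ, (((s σ : ℤ) - (s' σ : ℤ) : ℤ) : ℂ) * τ σ =
        z * ∑ σ, s σ * τ σ - z * ∑ σ, s' σ * τ σ := by
      rw [← mul_sub, ← Finset.sum_sub_distrib]
      congr 1
      refine Finset.sum_congr rfl fun σ _ => ?_
      push_cast
      ring
    rw [h4, Complex.exp_sub, h2, div_self (Complex.exp_ne_zero _)]
  by_contra hne
  have h2 := h1 (Real.pi * Complex.I / ∑ σ, ((s σ : ℤ) - (s' σ : ℤ) : ℤ) * τ σ)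
  rw [div_mul_cancel₀ _ hne, Complex.exp_pi_mul_I] at h2
  norm_num at h2

end torus

section torsor

variable {K : Type} [Field K] [Algebra K ℂ] [IsAlgClosed K] {n e : ℕ} {c : Fin n → Fin e}
  {P : GL (Fin n) ℂ} (hP : Respects c (P : Matrix (Fin n) (Fin n) ℂ))
  {H : Subgroup (GL (Fin n) ℂ)} (hH : IsAlgebraicGroup K H) (hPH : OnTorsor K H P)

include hP hH hPH in
theorem full_of_sl (hLC : ∀ Z : Matrix (Fin n) (Fin n) ℂ, Respects c Z →
      (∀ σ, (Z.toSquareBlock c σ).trace = 0) → Z ∈ LC H) (hSL : ContainsColouredSL c H)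
    (hdet : DeterminantsIndependent K c (P : Matrix (Fin n) (Fin n) ℂ)) (g : GL (Fin n) ℂ)
    (hg : Respects c (g : Matrix (Fin n) (Fin n) ℂ)) : g ∈ H := by
  have hsize : ∀ σ, size c σ = Fintype.card {i // c i = σ} := fun _ => rfl
  -- the torus
  have htor : ∀ t : Fin e → ℂˣ, sc c t ∈ H := by
    by_contra hcon
    push Not at hcon
    obtain ⟨t₀, ht₀⟩ := hcon
    obtain ⟨s, s', ⟨σ₀, hσ₀, hσ₀'⟩, hker⟩ := exists_char hH ht₀
    have hd : ∀ σ, (Mb c P σ).det ≠ 0 := by
      intro σ h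
      have h1 := congrArg Matrix.det (Mb_mul hP σ)
      rw [Matrix.det_mul, h, zero_mul, Matrix.det_one] at h1
      exact zero_ne_one h1
    have key : ∀ δ : Derivation K ℂ ℂ, ∑ σ, ((s σ : ℤ) - (s' σ : ℤ) : ℤ) *
        ((δ (Mb c P σ).det / (Mb c P σ).det) / size c σ) = 0 := by
      intro δ
      refine char_zero (c := c) hker hH ?_
      have h1 : ∀ σ, ((ld δ P).toSquareBlock c σ).trace =
          δ (Mb c P σ).det / (Mb c P σ).det := by
        intro σ
        rw [jacobiI δ (lg_mul_M δ (Mb_mul hP σ)), mul_div_cancel_right₀ _ (hd σ)]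
        congr 1
        have h1 : Respects c (dm δ (P : Matrix (Fin n) (Fin n) ℂ)) := fun i j hij => by
          change δ ((P : Matrix (Fin n) (Fin n) ℂ) i j) = 0
          rw [hP i j hij, map_zero]
        exact block_mul (B := ((P⁻¹ : GL (Fin n) ℂ) : Matrix (Fin n) (Fin n) ℂ)) h1 σ
      have h2 : ld δ P - Matrix.diagonal (fun i => (δ (Mb c P (c i)).det /
          (Mb c P (c i)).det) / size c (c i)) ∈ LC H := by
        refine hLC _ (res_sub (ld_res hP δ) fun i j hij =>
          Matrix.diagonal_apply_ne _ fun h => hij (by rw [h])) fun σ => ?_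
        have h3 : (ld δ P - Matrix.diagonal (fun i => (δ (Mb c P (c i)).det /
            (Mb c P (c i)).det) / size c (c i))).toSquareBlock c σ =
            (ld δ P).toSquareBlock c σ - Matrix.diagonal (fun _ => (δ (Mb c P σ).det /
            (Mb c P σ).det) / size c σ) := by
          ext i j
          change _ - Matrix.diagonal (fun i => (δ (Mb c P (c i)).det /
            (Mb c P (c i)).det) / size c (c i)) (i : Fin n) (j : Fin n) = _ -
            Matrix.diagonal (fun _ => (δ (Mb c P σ).det /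
            (Mb c P σ).det) / size c σ) i j
          by_cases hij : i = j
          · subst hij
            rw [Matrix.diagonal_apply_eq, Matrix.diagonal_apply_eq, i.2]
            rfl
          · rw [Matrix.diagonal_apply_ne _ hij, Matrix.diagonal_apply_ne _ fun h =>
              hij (Subtype.ext h)]
            rfl
        rw [h3, Matrix.trace_sub, h1, Matrix.trace, Matrix.diag_diagonal, Finset.sum_const,
          Finset.card_univ, ← hsize, nsmul_eq_mul]
        by_cases h0 : (size c σ : ℂ) = 0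
        · have h4 : Fintype.card {i // c i = σ} = 0 := by
            rw [← hsize]
            exact_mod_cast h0
          have : IsEmpty {i // c i = σ} := Fintype.card_eq_zero_iff.1 h4
          rw [← h1 σ, h0, Matrix.trace_eq_zero_of_isEmpty]
          ring
        · rw [mul_div_cancel₀ _ h0, sub_self]
      have h4 := (LC H).sub_mem (ld_mem_LC hH hPH δ) h2
      rwa [sub_sub_cancel] at h4
    let b : Fin e → ℤ := fun σ => ((s σ : ℤ) - (s' σ : ℤ)) * ((n.factorial / size c σ : ℕ) : ℤ)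
    have hle : ∀ σ, size c σ ≤ n := by
      intro σ
      have h1 := Fintype.card_subtype_le fun i => c i = σ
      rwa [Fintype.card_fin] at h1
    have hb : ∀ σ, (b σ : ℂ) = n.factorial * (((s σ : ℤ) - (s' σ : ℤ) : ℤ) : ℂ) / size c σ := by
      intro σ
      by_cases h0 : size c σ = 0
      · change ((((s σ : ℤ) - (s' σ : ℤ)) * ((n.factorial / size c σ : ℕ) : ℤ) : ℤ) : ℂ) = _
        rw [h0, Nat.div_zero]
        simp
      · have h1 : size c σ ∣ n.factorial := Nat.dvd_factorial (Nat.pos_of_ne_zero h0) (hle σ)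
        change ((((s σ : ℤ) - (s' σ : ℤ)) * ((n.factorial / size c σ : ℕ) : ℤ) : ℤ) : ℂ) = _
        rw [Int.cast_mul, Int.cast_natCast, Nat.cast_div h1 (Nat.cast_ne_zero.2 h0)]
        ring
    have hconst : ∀ δ : Derivation K ℂ ℂ, δ (∏ σ, (Mb c P σ).det ^ b σ) = 0 := by
      intro δ
      rw [delta_prod δ _ hd]
      have h1 : ∑ σ, (b σ : ℂ) * (δ (Mb c P σ).det / (Mb c P σ).det) = n.factorial *
          ∑ σ, ((s σ : ℤ) - (s' σ : ℤ) : ℤ) *
            ((δ (Mb c P σ).det / (Mb c P σ).det) / size c σ) := by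
        rw [Finset.mul_sum]
        refine Finset.sum_congr rfl fun σ _ => ?_
        rw [hb]
        ring
      rw [h1, key, mul_zero, zero_mul]
    obtain ⟨r, hr⟩ := const_of_der hconst
    refine hdet b ⟨σ₀, ?_, hσ₀'⟩ (by
      change IsAlgebraic K (∏ σ, (Mb c P σ).det ^ b σ)
      rw [← hr]
      exact isAlgebraic_algebraMap r)
    refine mul_ne_zero (fun h => hσ₀ (by omega)) ?_
    rw [Nat.cast_ne_zero]
    exact (Nat.div_pos (Nat.le_of_dvd (Nat.factorial_pos n)
      (Nat.dvd_factorial (Nat.pos_of_ne_zero hσ₀') (hle σ₀))) (Nat.pos_of_ne_zero hσ₀')).ne'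
  -- the roots of the determinants
  have hbl : ∀ σ, ((g : Matrix (Fin n) (Fin n) ℂ).toSquareBlock c σ).det ≠ 0 := by
    intro σ h
    have h1 := congrArg Matrix.det (block_inv hg σ)
    rw [Matrix.det_mul, h, zero_mul, Matrix.det_one] at h1
    exact zero_ne_one h1
  have hroot : ∀ σ, ∃ t : ℂˣ, (t : ℂ) ^ size c σ =
      ((g : Matrix (Fin n) (Fin n) ℂ).toSquareBlock c σ).det := by
    intro σ
    by_cases h0 : size c σ = 0
    · refine ⟨1, ?_⟩
      have h4 : Fintype.card {i // c i = σ} = 0 := h0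
      have : IsEmpty {i // c i = σ} := Fintype.card_eq_zero_iff.1 h4
      rw [h0, pow_zero, Matrix.det_isEmpty]
    · obtain ⟨z, hz⟩ := IsAlgClosed.exists_pow_nat_eq
        ((g : Matrix (Fin n) (Fin n) ℂ).toSquareBlock c σ).det (Nat.pos_of_ne_zero h0)
      have hz0 : z ≠ 0 := by
        rintro rfl
        rw [zero_pow h0] at hz
        exact hbl σ hz.symm
      exact ⟨Units.mk0 z hz0, hz⟩
  choose t ht using hroot
  have h1 : g = sc c t * (sc c t⁻¹ * g) := by
    rw [← mul_assoc, ← map_mul, mul_inv_cancel, map_one, one_mul]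
  rw [h1]
  have hsc : ∀ u : Fin e → ℂˣ, Respects c (sc c u : Matrix (Fin n) (Fin n) ℂ) := fun u i j hij =>
    Matrix.diagonal_apply_ne _ fun h => hij (by rw [h])
  refine mul_mem (htor t) (hSL _ (res_mul (hsc _) hg) fun σ => ?_)
  have h2 : ((sc c t⁻¹ * g : GL (Fin n) ℂ) : Matrix (Fin n) (Fin n) ℂ).toSquareBlock c σ =
      ((sc c t⁻¹ : GL (Fin n) ℂ) : Matrix (Fin n) (Fin n) ℂ).toSquareBlock c σ *
      (g : Matrix (Fin n) (Fin n) ℂ).toSquareBlock c σ := block_mul (hsc _) σ
  have h3 : ((sc c t⁻¹ : GL (Fin n) ℂ) : Matrix (Fin n) (Fin n) ℂ).toSquareBlock c σ =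
      Matrix.diagonal fun _ => ((t σ)⁻¹ : ℂ) := by
    ext i j
    change Matrix.diagonal (fun i => (((t⁻¹ : Fin e → ℂˣ) (c i) : ℂˣ) : ℂ)) (i : Fin n)
      (j : Fin n) = _
    by_cases hij : i = j
    · subst hij
      rw [Matrix.diagonal_apply_eq, Matrix.diagonal_apply_eq, i.2, Pi.inv_apply,
        Units.val_inv_eq_inv_val]
    · rw [Matrix.diagonal_apply_ne _ hij, Matrix.diagonal_apply_ne _ fun h =>
        hij (Subtype.ext h)]
  rw [h2, Matrix.det_mul, h3, Matrix.det_diagonal, Finset.prod_const, Finset.card_univ, ← hsize,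
    ← ht, inv_pow, inv_mul_cancel₀ (pow_ne_zero _ (t σ).ne_zero)]

end torsor

end Pool.Agent.Q50.EX
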