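import Pool.Agent.Q50.EX.Ext
import Pool.Agent.Q50.SR.Wts

/-!
# Singular vectors in the exterior powers
-/

set_option linter.unusedSectionVars false
set_option maxHeartbeats 4000000
set_option synthInstance.maxHeartbeats 400000

namespace Pool.Agent.Q50.EX

open Module Pool.Agent.Q50.SR

section sing

variable {K S ι : Type*} [Field K] [CharZero K] [IsAlgClosed K] [AddCommGroup S] [Module K S]
  [FiniteDimensional K S] [Fintype ι] [DecidableEq ι]
  {e f h : ι → Module.End K S} {A : ι → ι → K} {c : ι → K}

/-- singular vectors of one weight in an irreducible stable subspace are multiples of the highest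
weight vector -/
theorem qt_sing (hC : Chev e f h A c) {Q : Submodule K S} {μ : K} {s0 : S} {σ : ι → K}
    (q : QT e f h c Q μ s0 σ) (hf : ∀ i, ∀ x ∈ Q, f i x ∈ Q)
    (hirr : ∀ U ≤ Q, (∀ i, ∀ x ∈ U, e i x ∈ U) → (∀ i, ∀ x ∈ U, f i x ∈ U) → U = ⊥ ∨ U = Q)
    {U : Submodule K S} (hUQ : U ≤ Q) (hU : ∀ j, ∀ x ∈ U, h j x ∈ U)
    (hU' : ∀ j, ∀ x ∈ U, e j x = 0) {ν : K} (hν : ∀ x ∈ U, H0 h c x = ν • x) :
    U ≤ Submodule.span K {s0} := by
  by_cases hU0 : U = ⊥
  · rw [hU0]
    exact bot_le
  obtain ⟨u, hu, hu0⟩ := (Submodule.ne_bot_iff _).1 hU0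
  obtain ⟨j, hj⟩ := q.eig ν u (hUQ hu) (hν u hu) hu0
  have hlev : U ≤ lev h c μ (j : ℤ) := by
    intro x hx
    rw [mem_lev, hν x hx, hj]
    push_cast
    rfl
  have hle : ∀ k, wd f U k ≤ Q := by
    intro k
    induction k with
    | zero => exact hUQ
    | succ k ih => exact wd_succ_le fun i x hx => hf i x (ih hx)
  have htop : ⨆ k, wd f U k = Q := by
    rcases hirr (⨆ k, wd f U k) (iSup_le hle) (fun i => (hC.iSup_wd hU hU' i).1)
      (fun i => (hC.iSup_wd hU hU' i).2) with h1 | h1
    · exfalso
      apply hU0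
      rw [eq_bot_iff, ← h1]
      exact le_iSup (wd f U) 0
    · exact h1
  have hs0 : s0 ∈ ⨆ k, wd f U k := by
    rw [htop]
    exact q.mem
  have h2 := mem_of_lev (k := (j : ℤ)) (fun i => hC.wd_lev hlev i) hs0 q.lev
  have hj0 : j = 0 := by
    by_contra hj0
    exact q.ne (h2.2 fun i hi => by omega)
  subst hj0
  intro x hx
  have h3 := q.wd 0 x (hUQ hx) (by
    have h4 := hlev hx
    simpa using h4)
  exact h3

end sing

/-! ### The exterior powers -/

section ext

variable {K W ι : Type*} [Field K] [CharZero K] [AddCommGroup W] [Module K W]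
  [Fintype ι] [DecidableEq ι]
  {e f h : ι → Module.End K W} {A : ι → ι → K} {c : ι → K}

theorem chev_D (hC : Chev e f h A c) :
    Chev (fun i => D (e i)) (fun i => D (f i)) (fun i => D (h i)) A c := by
  have key : ∀ x y : Module.End K W, D x * D y - D y * D x = D (x * y - y * x) := fun x y =>
    (D_bracket x y).symm
  refine ⟨?_, ?_, ?_, ?_, ?_, hC.diag, hC.zero, hC.inj, hC.rho⟩
  · intro i j
    rw [← sub_eq_zero, key, hC.hh, sub_self, D_zero]
  · intro i j
    rw [key, hC.he, D_smul]
  · intro i j
    rw [key, hC.hf, D_neg, D_smul]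
  · intro i
    rw [key, hC.ef]
  · intro i j hij
    rw [← sub_eq_zero, key, hC.ef' i j hij, sub_self, D_zero]

theorem H0_D : H0 (fun i => D (h i)) c = D (H0 h c) := by
  unfold H0
  have h1 : ∀ z : Module.End K W, D z = Dl z := fun z => rfl
  rw [h1, map_sum]
  refine Finset.sum_congr rfl fun i _ => ?_
  rw [map_smul]
  rfl

/-- a product of eigenvectors is an eigenvector -/
theorem D_eig {z : Module.End K W} {k : ℕ} {v : Fin k → W} {r : Fin k → K}
    (hv : ∀ t, z (v t) = r t • v t) :
    D z (ExteriorAlgebra.ιMulti K k v) = (∑ t, r t) • ExteriorAlgebra.ιMulti K k v := by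
  rw [D_ιMulti, Finset.sum_smul]
  refine Finset.sum_congr rfl fun t _ => ?_
  rw [hv, AlternatingMap.map_update_smul, Function.update_eq_self]

/-- a term of the derivative is zero if a vector is replaced by a multiple of another one -/
theorem upd_zero {k : ℕ} {v : Fin k → W} {t s : Fin k} (hst : s ≠ t) {a : K} {x : W}
    (hx : x = a • v s) : ExteriorAlgebra.ιMulti K k (Function.update v t x) = 0 := by
  rw [hx, AlternatingMap.map_update_smul, (ExteriorAlgebra.ιMulti K k).map_eq_zero_of_eq
    (Function.update v t (v s)) (i := s) (j := t) (by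
      rw [Function.update_self, Function.update_of_ne hst]) hst, smul_zero]

theorem upd_zero' {k : ℕ} {v : Fin k → W} {t : Fin k} :
    ExteriorAlgebra.ιMulti K k (Function.update v t 0) = 0 := by
  have h1 := (ExteriorAlgebra.ιMulti K k).map_update_smul v t (0 : K) 0
  rwa [zero_smul, zero_smul] at h1

/-- the product of linearly independent vectors is not zero -/
theorem ιMulti_ne {k : ℕ} {v : Fin k → W} (hv : LinearIndependent K v) :
    ExteriorAlgebra.ιMulti K k v ≠ 0 := by
  have h1 := exteriorPower.ιMulti_family_linearIndependent_field (n := k) hv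
  let s : Set.powersetCard (Fin k) k := ⟨Finset.univ, by
    change Finset.univ.card = k
    rw [Finset.card_univ, Fintype.card_fin]⟩
  have h2 := h1.ne_zero s
  have h3 : (exteriorPower.ιMulti_family K k v s : ExteriorAlgebra K W) =
      ExteriorAlgebra.ιMulti K k v := by
    change ExteriorAlgebra.ιMulti K k (v ∘ (Set.powersetCard.ofFinEmbEquiv.symm s)) = _
    congr 1
    have h4 : ∀ g : Fin k ↪o Fin k, ∀ i, g i = i := by
      intro g i
      have h5 : StrictMono (id : Fin k → Fin k) := strictMono_id
      have h6 := (g.strictMono.range_inj h5).1 (by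
        rw [Set.range_id, Set.range_eq_univ]
        exact (Finite.injective_iff_surjective).1 g.injective)
      exact congrFun h6 i
    funext i
    rw [Function.comp_apply, h4]
  intro h0
  apply h2
  refine Subtype.ext ?_
  rw [h3, h0]
  rfl

end ext

end Pool.Agent.Q50.EX
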