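import Pool.Agent.Q50.EX.Chn

/-!
# The chain of the levels
-/

set_option linter.unusedSectionVars false
set_option maxHeartbeats 4000000
set_option synthInstance.maxHeartbeats 400000

namespace Pool.Agent.Q50.EX

open Module Pool.Agent.Q50.SR

instance {K W : Type*} [Field K] [AddCommGroup W] [Module K W] [FiniteDimensional K W] :
    FiniteDimensional K (ExteriorAlgebra K W) :=
  Module.Finite.of_basis (Module.finBasis K W).ExteriorAlgebra

/-- irreducibility of the exterior power for the generators -/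
def IrrE {K W ι : Type*} [Field K] [AddCommGroup W] [Module K W] (e f : ι → Module.End K W)
    (k : ℕ) : Prop :=
  ∀ U ≤ ⋀[K]^k W, (∀ i, ∀ x ∈ U, D (e i) x ∈ U) → (∀ i, ∀ x ∈ U, D (f i) x ∈ U) →
    U = ⊥ ∨ U = ⋀[K]^k W

theorem pow_ne_bot {K W : Type*} [Field K] [AddCommGroup W] [Module K W] [FiniteDimensional K W]
    {k : ℕ} (hk : k ≤ finrank K W) : (⋀[K]^k W : Submodule K (ExteriorAlgebra K W)) ≠ ⊥ := by
  intro h0
  have h1 := exteriorPower.finrank_eq (R := K) (n := k) (M := W)
  rw [h0, finrank_bot] at h1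
  exact (Nat.choose_pos hk).ne' h1.symm

theorem irr_top {K W ι : Type*} [Field K] [AddCommGroup W] [Module K W] [FiniteDimensional K W]
    (e f : ι → Module.End K W) : IrrE e f (finrank K W) := by
  intro U hU _ _
  have h1 := exteriorPower.finrank_eq (R := K) (n := finrank K W) (M := W)
  rw [Nat.choose_self] at h1
  by_cases h0 : U = ⊥
  · exact Or.inl h0
  · right
    refine Submodule.eq_of_le_of_finrank_le hU ?_
    rw [h1]
    exact Nat.one_le_iff_ne_zero.2 fun h2 => h0 (Submodule.finrank_eq_zero.1 h2)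

variable {K W ι : Type*} [Field K] [CharZero K] [IsAlgClosed K] [AddCommGroup W] [Module K W]
  [FiniteDimensional K W] [Fintype ι] [DecidableEq ι]
  {e f h : ι → Module.End K W} {A : ι → ι → K} {c : ι → K}

/-- the vectors of the chain -/
noncomputable def wv (f : ι → Module.End K W) (w0 : W) (k : ℕ) : W := ((∑ i, f i) ^ k) w0

theorem wv_zero (w0 : W) : wv f w0 0 = w0 := by
  unfold wv
  rw [pow_zero, Module.End.one_apply]

theorem wv_succ (w0 : W) (k : ℕ) : wv f w0 (k + 1) = ∑ i, f i (wv f w0 k) := by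
  unfold wv
  rw [pow_succ', Module.End.mul_apply, LinearMap.sum_apply]

theorem wv_lev (hC : Chev e f h A c) {μ : K} {w0 : W} (hlev : w0 ∈ lev h c μ 0) (k : ℕ) :
    wv f w0 k ∈ lev h c μ k := by
  induction k with
  | zero =>
    rw [wv_zero]
    simpa using hlev
  | succ k ih =>
    rw [wv_succ]
    refine Submodule.sum_mem _ fun i _ => ?_
    have h1 := hC.f_lev i ih
    push_cast
    exact h1

/-- eigenvectors in different levels are linearly independent -/
theorem lev_li {μ : K} {k : ℕ} {v : Fin k → W} {d : Fin k → ℕ} (hd : Function.Injective d)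
    (hv : ∀ t, v t ∈ lev h c μ (d t)) (hv0 : ∀ t, v t ≠ 0) : LinearIndependent K v := by
  refine Module.End.eigenvectors_linearIndependent' (H0 h c) (fun t : Fin k => μ - 2 * (d t : K))
    (fun s t hst => ?_) v fun t => ⟨?_, hv0 t⟩
  · have h1 : (2 : K) * (d s : K) = 2 * (d t : K) := by
      have h2 : μ - 2 * (d s : K) = μ - 2 * (d t : K) := hst
      linear_combination -h2
    have h2 := mul_left_cancel₀ (two_ne_zero (α := K)) h1
    exact hd (by exact_mod_cast h2)
  · have h1 := hv t
    rw [mem_lev] at h1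
    rw [Module.End.mem_eigenspace_iff, h1]
    push_cast
    rfl

/-- the next level has dimension at most one -/
theorem step (hC : Chev e f h A c) (hirrW : Irr e f) {μ : K} {w0 : W} {σ : ι → K} (hw0 : w0 ≠ 0)
    (hlev : w0 ∈ lev h c μ 0) (he0 : ∀ i, e i w0 = 0) (hh0 : ∀ i, h i w0 = σ i • w0) {k : ℕ}
    (hk : k + 1 ≤ finrank K W) (hirr : IrrE e f (k + 1))
    (ih : ∀ j < k, wv f w0 j ≠ 0 ∧ ∀ x ∈ lev h c μ j, ∃ a : K, x = a • wv f w0 j) {u u' : W}
    (hu : u ∈ lev h c μ k) (hu' : u' ∈ lev h c μ k) (hu0 : u ≠ 0) : ∃ a : K, u' = a • u := by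
  let v0 : Fin (k + 1) → W := fun j => wv f w0 j
  let Y : W →ₗ[K] ExteriorAlgebra K W :=
    (ExteriorAlgebra.ιMulti K (k + 1)).toMultilinearMap.toLinearMap v0 (Fin.last k)
  have hY : ∀ u, Y u = ExteriorAlgebra.ιMulti K (k + 1) (Function.update v0 (Fin.last k) u) :=
    fun u => rfl
  have hv : ∀ u ∈ lev h c μ k, ∀ t : Fin (k + 1),
      Function.update v0 (Fin.last k) u t ∈ lev h c μ (t : ℕ) := by
    intro u hu t
    by_cases ht : t = Fin.last k
    · rw [ht, Function.update_self]
      exact hu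
    · rw [Function.update_of_ne ht]
      exact wv_lev hC hlev t
  have hv1 : ∀ (u : W) (t : Fin (k + 1)), (t : ℕ) < k →
      Function.update v0 (Fin.last k) u t = wv f w0 t := by
    intro u t ht
    rw [Function.update_of_ne]
    intro h0
    rw [h0] at ht
    exact lt_irrefl _ ht
  have hY0 : ∀ u ∈ lev h c μ k, Y u = 0 → u = 0 := by
    intro u hu h0
    by_contra hne
    refine ιMulti_ne (lev_li (h := h) (c := c) (μ := μ) (d := fun t : Fin (k + 1) => (t : ℕ))
      Fin.val_injective (hv u hu) fun t => ?_) h0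
    by_cases ht : t = Fin.last k
    · rw [ht, Function.update_self]
      exact hne
    · have ht' : (t : ℕ) < k := by
        have h1 := t.2
        have h2 : (t : ℕ) ≠ k := fun h3 => ht (Fin.ext h3)
        omega
      rw [hv1 u t ht']
      exact (ih t ht').1
  have hC' := chev_D hC
  obtain ⟨μ', s0, σ', q⟩ := exists_qt hC' (Q := ⋀[K]^(k + 1) W) (pow_ne_bot hk)
    (fun i x hx => D_mem (e i) hx) (fun i x hx => D_mem (f i) hx) hirr
  have hU : (lev h c μ k).map Y ≤ Submodule.span K {s0} := by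
    refine qt_sing hC' q (fun i x hx => D_mem (f i) hx) hirr (ν := ∑ t : Fin (k + 1),
      (μ - 2 * (t : ℕ))) ?_ ?_ ?_ ?_
    · rintro _ ⟨u, _, rfl⟩
      exact ιMulti_mem _ _
    · rintro j _ ⟨u, hu, rfl⟩
      have h1 : ∀ t : Fin k, ∃ a : K, h j (wv f w0 t) = a • wv f w0 t := fun t =>
        (ih t t.2).2 _ (hC.h_lev j (wv_lev hC hlev t))
      choose a ha using h1
      have h2 : D (h j) (Y u) = (∑ t, a t) • Y u + Y (h j u) := by
        rw [hY, D_ιMulti, Fin.sum_univ_castSucc, Finset.sum_smul]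
        congr 1
        · refine Finset.sum_congr rfl fun t _ => ?_
          have h3 : Function.update v0 (Fin.last k) u t.castSucc = wv f w0 t :=
            hv1 u t.castSucc t.2
          rw [h3, ha, ← h3, AlternatingMap.map_update_smul, Function.update_eq_self]
        · rw [Function.update_self, Function.update_idem, hY]
      rw [h2]
      exact Submodule.add_mem _ (Submodule.smul_mem _ _ ⟨u, hu, rfl⟩) ⟨_, hC.h_lev j hu, rfl⟩
    · rintro i _ ⟨u, hu, rfl⟩
      rw [hY, D_ιMulti]
      refine Finset.sum_eq_zero fun t _ => ?_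
      have h1 := hC.e_lev i (hv u hu t)
      by_cases ht : (t : ℕ) = 0
      · rw [ht] at h1
        rw [lev_neg hC hirrW hw0 hlev he0 hh0 (by norm_num) h1]
        exact upd_zero'
      · have h2 : ((t : ℕ) : ℤ) - 1 = (((t : ℕ) - 1 : ℕ) : ℤ) := by omega
        rw [h2] at h1
        have ht2 : (t : ℕ) - 1 < k := by
          have := t.2
          omega
        obtain ⟨a, ha⟩ := (ih _ ht2).2 _ h1
        let s : Fin (k + 1) := ⟨(t : ℕ) - 1, by omega⟩
        refine upd_zero (s := s) (a := a) ?_ ?_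
        · intro h3
          have h4 := congrArg Fin.val h3
          change (t : ℕ) - 1 = t at h4
          omega
        · rw [ha, hv1 u s ht2]
    · rintro _ ⟨u, hu, rfl⟩
      rw [H0_D, hY]
      refine D_eig fun t => ?_
      have h1 := hv u hu t
      rw [mem_lev] at h1
      rw [h1]
      push_cast
      rfl
  obtain ⟨a, ha⟩ := Submodule.mem_span_singleton.1 (hU ⟨u, hu, rfl⟩)
  obtain ⟨b, hb⟩ := Submodule.mem_span_singleton.1 (hU ⟨u', hu', rfl⟩)
  have ha0 : a ≠ 0 := by
    rintro rfl
    rw [zero_smul] at ha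
    exact hu0 (hY0 u hu ha.symm)
  refine ⟨b * a⁻¹, ?_⟩
  rw [← sub_eq_zero]
  refine hY0 _ (Submodule.sub_mem _ hu' (Submodule.smul_mem _ _ hu)) ?_
  rw [map_sub, map_smul, ← ha, ← hb, smul_smul, mul_assoc, inv_mul_cancel₀ ha0, mul_one, sub_self]

end Pool.Agent.Q50.EX
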