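import Pool.Agent.Q50.EX.Chn2
import Pool.Agent.Q50.EX.Spec

/-!
# The chain of the levels, continued
-/

set_option linter.unusedSectionVars false
set_option maxHeartbeats 4000000
set_option synthInstance.maxHeartbeats 400000

namespace Pool.Agent.Q50.EX

open Module Pool.Agent.Q50.SR

section gen

variable {K W ι : Type*} [Field K] [CharZero K] [IsAlgClosed K] [AddCommGroup W] [Module K W]
  [FiniteDimensional K W] [Fintype ι] [DecidableEq ι]
  {e f h : ι → Module.End K W} {A : ι → ι → K} {c : ι → K}

section ctx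

variable (hC : Chev e f h A c) (hirrW : Irr e f) {μ : K} {w0 : W} {σ : ι → K} (hw0 : w0 ≠ 0)
  (hlev : w0 ∈ lev h c μ 0) (he0 : ∀ i, e i w0 = 0) (hh0 : ∀ i, h i w0 = σ i • w0)
  (hirr : ∀ k, 1 ≤ k → k ≤ finrank K W → IrrE e f k)

include hC hirrW hw0 hlev he0 hh0 hirr

/-- the levels have dimension one -/
theorem levels (k : ℕ) (hk : k < finrank K W) :
    wv f w0 k ≠ 0 ∧ ∀ x ∈ lev h c μ k, ∃ a : K, x = a • wv f w0 k := by
  induction k using Nat.strong_induction_on with
  | _ k ih =>
  have hstep : ∀ u ∈ lev h c μ k, ∀ u' ∈ lev h c μ k, u ≠ 0 → ∃ a : K, u' = a • u :=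
    fun u hu u' hu' hu0 => step hC hirrW hw0 hlev he0 hh0 (k := k) hk (hirr _ (by omega) hk)
      (fun j hj => ih j hj (by omega)) hu hu' hu0
  have hne : wv f w0 k ≠ 0 := by
    rcases Nat.eq_zero_or_pos k with rfl | hk0
    · rw [wv_zero]
      exact hw0
    obtain ⟨l, rfl⟩ : ∃ l, k = l + 1 := ⟨k - 1, by omega⟩
    have ihl := ih l (by omega) (by omega)
    have hwd : wd f (Submodule.span K {w0}) l ≤ Submodule.span K {wv f w0 l} := by
      intro x hx
      have h1 := span_lev (s0 := w0) hC hlev l hx
      rw [zero_add] at h1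
      obtain ⟨a, ha⟩ := ihl.2 x h1
      rw [ha]
      exact Submodule.smul_mem _ _ (Submodule.mem_span_singleton_self _)
    -- the level is not zero
    have hlne : ∃ x ∈ lev h c μ ((l + 1 : ℕ) : ℤ), x ≠ 0 := by
      by_contra hcon
      push Not at hcon
      have h0 : ∀ j, l + 1 ≤ j → ∀ x ∈ lev h c μ (j : ℤ), x = 0 := by
        intro j hj
        induction j, hj using Nat.le_induction with
        | base => exact hcon
        | succ j hj ihj =>
          intro x hx
          have h1 := lev_wd hC hirrW hw0 hlev he0 hh0 (k := j + 1) hx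
          have h2 : wd f (Submodule.span K {w0}) (j + 1) ≤ ⊥ := by
            refine wd_succ_le fun i y hy => ?_
            have h3 := span_lev (s0 := w0) hC hlev j hy
            rw [zero_add] at h3
            rw [ihj y h3, map_zero]
            exact Submodule.zero_mem _
          exact (Submodule.mem_bot K).1 (h2 h1)
      have htop : (⊤ : Submodule K W) ≤ Submodule.span K
          (Set.range fun j : Fin (l + 1) => wv f w0 j) := by
        rw [← iSup_lev hC hirrW hw0 hlev he0 hh0]
        refine iSup_le fun j x hx => ?_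
        by_cases hj : j < l + 1
        · obtain ⟨a, ha⟩ := (ih j hj (by omega)).2 x hx
          rw [ha]
          exact Submodule.smul_mem _ _ (Submodule.subset_span ⟨⟨j, hj⟩, rfl⟩)
        · rw [h0 j (by omega) x hx]
          exact Submodule.zero_mem _
      have h1 := finrank_range_le_card (R := K) (fun j : Fin (l + 1) => wv f w0 j)
      rw [Set.finrank, eq_top_iff.2 htop, finrank_top, Fintype.card_fin] at h1
      omega
    obtain ⟨x, hx, hx0⟩ := hlne
    -- one of the `f i` is not zero
    obtain ⟨i, hi⟩ : ∃ i, f i (wv f w0 l) ≠ 0 := by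
      by_contra hcon
      push Not at hcon
      have h1 := lev_wd hC hirrW hw0 hlev he0 hh0 (k := l + 1) hx
      have h2 : wd f (Submodule.span K {w0}) (l + 1) ≤ ⊥ := by
        refine wd_succ_le fun i y hy => ?_
        obtain ⟨a, rfl⟩ := Submodule.mem_span_singleton.1 (hwd hy)
        rw [map_smul, hcon, smul_zero]
        exact Submodule.zero_mem _
      exact hx0 ((Submodule.mem_bot K).1 (h2 h1))
    have hfl : ∀ i, f i (wv f w0 l) ∈ lev h c μ ((l + 1 : ℕ) : ℤ) := by
      intro i
      have h1 := hC.f_lev i (wv_lev hC hlev l)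
      push_cast
      exact h1
    -- the others are zero
    have hi' : ∀ i', i' ≠ i → f i' (wv f w0 l) = 0 := by
      intro i' hne
      by_contra h0
      obtain ⟨a, ha⟩ := hstep _ (hfl i) _ (hfl i') hi
      apply hne
      refine hC.inj i' i fun j => ?_
      obtain ⟨b, hb⟩ := ihl.2 _ (hC.h_lev j (wv_lev hC hlev l))
      have h1 : ∀ i, h j (f i (wv f w0 l)) = (b - A i j) • f i (wv f w0 l) := by
        intro i
        rw [hC.hf', hb, map_smul, sub_smul]
      have h2 := h1 i'
      rw [ha, map_smul, h1 i, smul_comm, ← ha] at h2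
      have h3 : ((b - A i j) - (b - A i' j)) • f i' (wv f w0 l) = 0 := by
        rw [sub_smul, h2, sub_self]
      have h4 := (smul_eq_zero.1 h3).resolve_right h0
      linear_combination h4
    rw [wv_succ, Finset.sum_eq_single i (fun i' _ hne => hi' i' hne)
      (fun h0 => absurd (Finset.mem_univ _) h0)]
    exact hi
  exact ⟨hne, fun x hx => hstep _ (wv_lev hC hlev k) x hx hne⟩

/-- the label -/
theorem label {k : ℕ} (hk : k + 1 < finrank K W) : ∃ i, f i (wv f w0 k) = wv f w0 (k + 1) ∧
    ∀ i', i' ≠ i → f i' (wv f w0 k) = 0 := by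
  have hk' := levels hC hirrW hw0 hlev he0 hh0 hirr (k + 1) hk
  have hk0 := levels hC hirrW hw0 hlev he0 hh0 hirr k (by omega)
  obtain ⟨i, hi⟩ : ∃ i, f i (wv f w0 k) ≠ 0 := by
    by_contra hcon
    push Not at hcon
    apply hk'.1
    rw [wv_succ]
    exact Finset.sum_eq_zero fun i _ => hcon i
  have hfl : ∀ i, f i (wv f w0 k) ∈ lev h c μ ((k + 1 : ℕ) : ℤ) := by
    intro i
    have h1 := hC.f_lev i (wv_lev hC hlev k)
    push_cast
    exact h1
  have hi' : ∀ i', i' ≠ i → f i' (wv f w0 k) = 0 := by
    intro i' hne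
    by_contra h0
    obtain ⟨a, ha⟩ := hk'.2 _ (hfl i)
    obtain ⟨a', ha'⟩ := hk'.2 _ (hfl i')
    apply hne
    refine hC.inj i' i fun j => ?_
    obtain ⟨b, hb⟩ := hk0.2 _ (hC.h_lev j (wv_lev hC hlev k))
    obtain ⟨b', hb'⟩ := hk'.2 _ (hC.h_lev j (wv_lev hC hlev (k + 1)))
    have h1 : ∀ i, h j (f i (wv f w0 k)) = (b - A i j) • f i (wv f w0 k) := by
      intro i
      rw [hC.hf', hb, map_smul, sub_smul]
    have h2 : ∀ (i : ι) (a : K), f i (wv f w0 k) = a • wv f w0 (k + 1) →
        f i (wv f w0 k) ≠ 0 → b' = b - A i j := by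
      intro i a ha h0
      have h3 := h1 i
      have h4 : a ≠ 0 := by
        rintro rfl
        rw [zero_smul] at ha
        exact h0 ha
      rw [ha, map_smul, hb', smul_smul, smul_smul, ← sub_eq_zero, ← sub_smul] at h3
      have h5 := (smul_eq_zero.1 h3).resolve_right hk'.1
      have h6 : a * (b' - (b - A i j)) = 0 := by linear_combination h5
      exact sub_eq_zero.1 ((mul_eq_zero.1 h6).resolve_left h4)
    have h3 := h2 i a ha hi
    have h4 := h2 i' a' ha' h0
    linear_combination h4 - h3
  refine ⟨i, ?_, hi'⟩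
  rw [wv_succ, Finset.sum_eq_single i (fun i' _ hne => hi' i' hne)
    (fun h0 => absurd (Finset.mem_univ _) h0)]

/-- the last level -/
theorem lev_last {k : ℕ} (hk : finrank K W ≤ k) {x : W} (hx : x ∈ lev h c μ k) : x = 0 := by
  by_contra hx0
  have h1 : LinearIndependent K (fun t : Fin (finrank K W + 1) =>
      if (t : ℕ) < finrank K W then wv f w0 t else x) := by
    refine lev_li (h := h) (c := c) (μ := μ)
      (d := fun t : Fin (finrank K W + 1) => if (t : ℕ) < finrank K W then (t : ℕ) else k) ?_ ?_ ?_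
    · intro s t hst
      simp only at hst
      have hs := s.2
      have ht := t.2
      split_ifs at hst with h1 h2 h2
      · exact Fin.ext hst
      · omega
      · omega
      · exact Fin.ext (by omega)
    · intro t
      split_ifs with h1
      · exact wv_lev hC hlev t
      · exact hx
    · intro t
      split_ifs with h1
      · exact (levels hC hirrW hw0 hlev he0 hh0 hirr t h1).1
      · exact hx0
  have h2 := h1.fintype_card_le_finrank
  rw [Fintype.card_fin] at h2
  omega

/-- the weights -/
theorem hweight {k : ℕ} (hk : k < finrank K W) (j : ι) : ∃ b : K,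
    h j (wv f w0 k) = b • wv f w0 k :=
  (levels hC hirrW hw0 hlev he0 hh0 hirr k hk).2 _ (hC.h_lev j (wv_lev hC hlev k))

end ctx

end gen

end Pool.Agent.Q50.EX
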