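import Pool.Agent.Q50.EX.Chn3

/-!
# The labels of the chain
-/

set_option linter.unusedSectionVars false
set_option maxHeartbeats 4000000
set_option synthInstance.maxHeartbeats 400000

namespace Pool.Agent.Q50.EX

open Module Pool.Agent.Q50.SR

section gen

variable {K W ι : Type*} [Field K] [CharZero K] [IsAlgClosed K] [AddCommGroup W] [Module K W]
  [FiniteDimensional K W] [Fintype ι] [DecidableEq ι]
  {e f h : ι → Module.End K W} {A : ι → ι → K} {c : ι → K}

theorem ιMulti_cons {k : ℕ} (w : W) (v : Fin k → W) :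
    ExteriorAlgebra.ι K w * ExteriorAlgebra.ιMulti K k v =
      ExteriorAlgebra.ιMulti K (k + 1) (Fin.cons w v) := by
  rw [ExteriorAlgebra.ιMulti_succ_apply]
  rfl

variable (hC : Chev e f h A c) (hirrW : Irr e f) {μ : K} {w0 : W} {σ : ι → K} (hw0 : w0 ≠ 0)
  (hlev : w0 ∈ lev h c μ 0) (he0 : ∀ i, e i w0 = 0) (hh0 : ∀ i, h i w0 = σ i • w0)
  (hirr : ∀ k, 1 ≤ k → k ≤ finrank K W → IrrE e f k)

include hC hirrW hw0 hlev he0 hh0 hirr

/-- the labels at distance two are different -/
theorem label_ne {j : ℕ} (hj : j + 3 < finrank K W) {i1 i3 : ι}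
    (h1 : f i1 (wv f w0 j) = wv f w0 (j + 1)) (h1' : ∀ i, i ≠ i1 → f i (wv f w0 j) = 0)
    (h3 : f i3 (wv f w0 (j + 2)) = wv f w0 (j + 3))
    (h3' : ∀ i, i ≠ i3 → f i (wv f w0 (j + 2)) = 0) : i1 ≠ i3 := by
  rintro rfl
  have hL := fun k hk => levels hC hirrW hw0 hlev he0 hh0 hirr k hk
  -- the vectors
  let v : Fin (j + 2) → W := fun t => wv f w0 t
  have hstep : ∀ (i : ι) (k : ℕ), k + 1 < finrank K W → ∃ a : K,
      f i (wv f w0 k) = a • wv f w0 (k + 1) := by
    intro i k hk
    refine (hL (k + 1) hk).2 _ ?_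
    have h2 := hC.f_lev i (wv_lev hC hlev k)
    push_cast
    exact h2
  let a1 : Fin (j + 2) := ⟨j + 1, by omega⟩
  let a0 : Fin (j + 2) := ⟨j, by omega⟩
  have ha01 : a0 ≠ a1 := by
    intro h0
    have h2 := congrArg Fin.val h0
    change j = j + 1 at h2
    omega
  let v1 : Fin (j + 2) → W := Function.update v a1 (wv f w0 (j + 2))
  let y1 : Fin (j + 2) → W := Function.update v a1 (wv f w0 (j + 3))
  let y2 : Fin (j + 2) → W := Function.update v1 a0 (wv f w0 (j + 1))
  have hv1 : ∀ t : Fin (j + 2), t ≠ a1 → v1 t = wv f w0 t := fun t ht => by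
    change Function.update v a1 _ t = _
    rw [Function.update_of_ne ht]
  have hv1' : v1 a1 = wv f w0 (j + 2) := by
    change Function.update v a1 _ a1 = _
    rw [Function.update_self]
  have hlt : ∀ t : Fin (j + 2), t ≠ a1 → t ≠ a0 → (t : ℕ) < j := by
    intro t h1 h2
    have h4 := t.2
    have h5 : (t : ℕ) ≠ j + 1 := fun h => h1 (Fin.ext h)
    have h6 : (t : ℕ) ≠ j := fun h => h2 (Fin.ext h)
    omega
  have hle : ∀ t : Fin (j + 2), t ≠ a1 → (t : ℕ) ≤ j := by
    intro t h1
    have h4 := t.2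
    have h5 : (t : ℕ) ≠ j + 1 := fun h => h1 (Fin.ext h)
    omega
  -- the action
  have hD0 : ∀ i, ∃ a : K, D (f i) (ExteriorAlgebra.ιMulti K _ v) =
      a • ExteriorAlgebra.ιMulti K _ v1 := by
    intro i
    obtain ⟨a, ha⟩ := hstep i (j + 1) (by omega)
    refine ⟨a, ?_⟩
    rw [D_ιMulti, Finset.sum_eq_single a1]
    · change ExteriorAlgebra.ιMulti K _ (Function.update v a1 (f i (wv f w0 (j + 1)))) = _
      rw [ha, AlternatingMap.map_update_smul]
    · intro t _ ht
      have ht' := hle t ht
      obtain ⟨b, hb⟩ := hstep i t (by omega)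
      refine upd_zero (s := ⟨(t : ℕ) + 1, by omega⟩) (a := b) ?_ hb
      intro h0
      have h2 := congrArg Fin.val h0
      change (t : ℕ) + 1 = t at h2
      omega
    · intro h0
      exact absurd (Finset.mem_univ _) h0
  have hD1 : ∀ i, ∃ a : K, D (f i) (ExteriorAlgebra.ιMulti K _ v1) =
      a • (ExteriorAlgebra.ιMulti K _ y1 + ExteriorAlgebra.ιMulti K _ y2) := by
    intro i
    have hsum : D (f i) (ExteriorAlgebra.ιMulti K _ v1) =
        ExteriorAlgebra.ιMulti K _ (Function.update v1 a1 (f i (wv f w0 (j + 2)))) +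
        ExteriorAlgebra.ιMulti K _ (Function.update v1 a0 (f i (wv f w0 j))) := by
      rw [D_ιMulti]
      have h2 : ∀ t ∈ (Finset.univ : Finset (Fin (j + 2))), t ∉ ({a1, a0} : Finset _) →
          ExteriorAlgebra.ιMulti K _ (Function.update v1 t (f i (v1 t))) = 0 := by
        intro t _ ht
        rw [Finset.mem_insert, Finset.mem_singleton, not_or] at ht
        have ht' := hlt t ht.1 ht.2
        obtain ⟨b, hb⟩ := hstep i t (by omega)
        have hs : (⟨(t : ℕ) + 1, by omega⟩ : Fin (j + 2)) ≠ a1 := by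
          intro h0
          have h2 := congrArg Fin.val h0
          change (t : ℕ) + 1 = j + 1 at h2
          omega
        refine upd_zero (s := ⟨(t : ℕ) + 1, by omega⟩) (a := b) ?_ ?_
        · intro h0
          have h2 := congrArg Fin.val h0
          change (t : ℕ) + 1 = t at h2
          omega
        · rw [hv1 t ht.1, hv1 _ hs]
          exact hb
      rw [← Finset.sum_subset (Finset.subset_univ ({a1, a0} : Finset _)) h2,
        Finset.sum_pair ha01.symm, hv1', hv1 a0 ha01]
    by_cases hi : i = i1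
    · refine ⟨1, ?_⟩
      rw [hsum, hi, h1, h3, one_smul]
      congr 1
      change ExteriorAlgebra.ιMulti K _ (Function.update (Function.update v a1 _) a1 _) = _
      rw [Function.update_idem]
    · refine ⟨0, ?_⟩
      rw [hsum, h1' i hi, h3' i hi, upd_zero', upd_zero', zero_smul, add_zero]
  -- the module
  have hC' := chev_D hC
  obtain ⟨μ', s0, σ', q⟩ := exists_qt hC' (Q := ⋀[K]^(j + 2) W) (pow_ne_bot (by omega))
    (fun i x hx => D_mem (e i) hx) (fun i x hx => D_mem (f i) hx) (hirr _ (by omega) (by omega))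
  have hval : ∀ t : Fin (j + 2), v t ∈ lev h c μ (t : ℕ) := fun t => wv_lev hC hlev t
  have hv0 : ExteriorAlgebra.ιMulti K _ v ≠ 0 := by
    refine ιMulti_ne (lev_li (h := h) (c := c) (μ := μ) (d := fun t : Fin (j + 2) => (t : ℕ))
      Fin.val_injective hval fun t => ?_)
    exact (hL t (by omega)).1
  have hvH : D (H0 h c) (ExteriorAlgebra.ιMulti K _ v) =
      (∑ t : Fin (j + 2), (μ - 2 * ((t : ℕ) : K))) • ExteriorAlgebra.ιMulti K _ v := by
    refine D_eig fun t => ?_
    have h2 := hval t
    rw [mem_lev] at h2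
    rw [h2]
    push_cast
    rfl
  have hvs : ExteriorAlgebra.ιMulti K _ v ∈ Submodule.span K {s0} := by
    refine qt_sing hC' q (fun i x hx => D_mem (f i) hx) (hirr _ (by omega) (by omega))
      (U := Submodule.span K {ExteriorAlgebra.ιMulti K _ v}) (ν := ∑ t : Fin (j + 2),
      (μ - 2 * ((t : ℕ) : K))) ?_ ?_ ?_ ?_ (Submodule.mem_span_singleton_self _)
    · rw [Submodule.span_singleton_le_iff_mem]
      exact ιMulti_mem _ _
    · intro l x hx
      obtain ⟨a, rfl⟩ := Submodule.mem_span_singleton.1 hx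
      have h2 : ∀ t : Fin (j + 2), ∃ b : K, h l (v t) = b • v t := fun t =>
        (hL t (by omega)).2 _ (hC.h_lev l (hval t))
      choose b hb using h2
      change D (h l) (a • ExteriorAlgebra.ιMulti K (j + 2) v) ∈ _
      rw [map_smul, D_eig hb]
      exact Submodule.smul_mem _ _ (Submodule.smul_mem _ _ (Submodule.mem_span_singleton_self _))
    · intro i x hx
      obtain ⟨a, rfl⟩ := Submodule.mem_span_singleton.1 hx
      change D (e i) (a • ExteriorAlgebra.ιMulti K (j + 2) v) = 0
      rw [map_smul, D_ιMulti]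
      refine smul_eq_zero_of_right _ (Finset.sum_eq_zero fun t _ => ?_)
      have h2 := hC.e_lev i (hval t)
      by_cases ht : (t : ℕ) = 0
      · rw [ht] at h2
        rw [lev_neg hC hirrW hw0 hlev he0 hh0 (by norm_num) h2]
        exact upd_zero'
      · have h4 : ((t : ℕ) : ℤ) - 1 = (((t : ℕ) - 1 : ℕ) : ℤ) := by omega
        rw [h4] at h2
        obtain ⟨b, hb⟩ := (hL _ (by omega)).2 _ h2
        refine upd_zero (s := ⟨(t : ℕ) - 1, by omega⟩) (a := b) ?_ hb
        intro h5
        have h6 := congrArg Fin.val h5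
        change (t : ℕ) - 1 = t at h6
        omega
    · intro x hx
      obtain ⟨a, rfl⟩ := Submodule.mem_span_singleton.1 hx
      rw [H0_D, map_smul, hvH, smul_comm]
  obtain ⟨a, ha⟩ := Submodule.mem_span_singleton.1 hvs
  have ha0 : a ≠ 0 := by
    rintro rfl
    rw [zero_smul] at ha
    exact hv0 ha.symm
  have hs0 : Submodule.span K {s0} ≤ Submodule.span K {ExteriorAlgebra.ιMulti K _ v} := by
    rw [Submodule.span_singleton_le_iff_mem, ← ha, Submodule.mem_span_singleton]
    exact ⟨a⁻¹, by rw [smul_smul, inv_mul_cancel₀ ha0, one_smul]⟩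
  have hμ : μ' = ∑ t : Fin (j + 2), (μ - 2 * ((t : ℕ) : K)) := by
    have h2 := q.lev
    rw [mem_lev, Int.cast_zero, mul_zero, sub_zero, H0_D] at h2
    have h4 : D (H0 h c) (a • s0) = μ' • (a • s0) := by rw [map_smul, h2, smul_comm]
    rw [ha, hvH, ← sub_eq_zero, ← sub_smul] at h4
    exact (sub_eq_zero.1 ((smul_eq_zero.1 h4).resolve_right hv0)).symm
  -- the second level
  have hwd2 : wd (fun i => D (f i)) (Submodule.span K {s0}) 2 ≤ Submodule.span K
      {ExteriorAlgebra.ιMulti K _ y1 + ExteriorAlgebra.ιMulti K _ y2} := by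
    have hwd1 : wd (fun i => D (f i)) (Submodule.span K {s0}) 1 ≤
        Submodule.span K {ExteriorAlgebra.ιMulti K _ v1} := by
      refine wd_succ_le fun i x hx => ?_
      obtain ⟨b, rfl⟩ := Submodule.mem_span_singleton.1 (hs0 hx)
      obtain ⟨b', hb'⟩ := hD0 i
      change D (f i) (b • ExteriorAlgebra.ιMulti K (j + 2) v) ∈ _
      rw [map_smul, hb']
      exact Submodule.smul_mem _ _ (Submodule.smul_mem _ _ (Submodule.mem_span_singleton_self _))
    refine wd_succ_le fun i x hx => ?_
    obtain ⟨b, rfl⟩ := Submodule.mem_span_singleton.1 (hwd1 hx)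
    obtain ⟨b', hb'⟩ := hD1 i
    change D (f i) (b • ExteriorAlgebra.ιMulti K (j + 2) v1) ∈ _
    rw [map_smul, hb']
    exact Submodule.smul_mem _ _ (Submodule.smul_mem _ _ (Submodule.mem_span_singleton_self _))
  have hy1 : ∀ t : Fin (j + 2), y1 t ∈ lev h c μ (if t = a1 then j + 3 else (t : ℕ) : ℕ) := by
    intro t
    by_cases ht : t = a1
    · rw [if_pos ht, ht]
      change Function.update v a1 _ a1 ∈ _
      rw [Function.update_self]
      exact wv_lev hC hlev (j + 3)
    · rw [if_neg ht]
      change Function.update v a1 _ t ∈ _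
      rw [Function.update_of_ne ht]
      exact hval t
  have hy1' : ∀ t : Fin (j + 2), y1 t ≠ 0 := by
    intro t
    by_cases ht : t = a1
    · rw [ht]
      change Function.update v a1 _ a1 ≠ _
      rw [Function.update_self]
      exact (hL _ hj).1
    · change Function.update v a1 _ t ≠ _
      rw [Function.update_of_ne ht]
      exact (hL t (by omega)).1
  have hy1H : D (H0 h c) (ExteriorAlgebra.ιMulti K _ y1) =
      (∑ t : Fin (j + 2), (μ - 2 * (((if t = a1 then j + 3 else (t : ℕ) : ℕ)) : K))) •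
        ExteriorAlgebra.ιMulti K _ y1 := by
    refine D_eig fun t => ?_
    have h2 := hy1 t
    rw [mem_lev] at h2
    rw [h2]
    push_cast
    rfl
  have hsum1 : ∑ t : Fin (j + 2), (μ - 2 * (((if t = a1 then j + 3 else (t : ℕ) : ℕ)) : K)) =
      μ' - 2 * ((2 : ℕ) : ℤ) := by
    have h2 : ∀ t : Fin (j + 2), (μ - 2 * (((if t = a1 then j + 3 else (t : ℕ) : ℕ)) : K)) =
        (μ - 2 * ((t : ℕ) : K)) + (if t = a1 then (-4 : K) else 0) := by
      intro t
      by_cases ht : t = a1
      · rw [if_pos ht, if_pos ht, ht]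
        change μ - 2 * ((j + 3 : ℕ) : K) = μ - 2 * ((j + 1 : ℕ) : K) + -4
        push_cast
        ring
      · rw [if_neg ht, if_neg ht, add_zero]
    simp only [h2, Finset.sum_add_distrib]
    rw [← hμ, Finset.sum_ite_eq' Finset.univ a1 (fun _ => (-4 : K)), if_pos (Finset.mem_univ _)]
    push_cast
    ring
  have hy1lev : ExteriorAlgebra.ιMulti K _ y1 ∈ lev (fun i => D (h i)) c μ' (2 : ℕ) := by
    rw [mem_lev, H0_D, hy1H, hsum1]
  obtain ⟨b, hb⟩ := Submodule.mem_span_singleton.1 (hwd2 (q.wd 2 _ (ιMulti_mem _ _) hy1lev))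
  -- multiplication by a vector
  have hz1 : ExteriorAlgebra.ι K (wv f w0 (j + 1)) * ExteriorAlgebra.ιMulti K _ y2 = 0 := by
    rw [ιMulti_cons]
    refine (ExteriorAlgebra.ιMulti K _).map_eq_zero_of_eq _ (i := 0) (j := a0.succ) ?_ ?_
    · rw [Fin.cons_zero, Fin.cons_succ]
      change _ = Function.update v1 a0 _ a0
      rw [Function.update_self]
    · exact (Fin.succ_ne_zero a0).symm
  have hz2 : ExteriorAlgebra.ι K (wv f w0 (j + 1)) * ExteriorAlgebra.ιMulti K _ y1 ≠ 0 := by
    rw [ιMulti_cons]
    refine ιMulti_ne (lev_li (h := h) (c := c) (μ := μ)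
      (d := Fin.cons (j + 1) (fun t : Fin (j + 2) => if t = a1 then j + 3 else (t : ℕ))) ?_ ?_ ?_)
    · rw [Fin.cons_injective_iff]
      constructor
      · rintro ⟨t, ht⟩
        simp only at ht
        split_ifs at ht with h2
        · omega
        · exact h2 (Fin.ext ht)
      · intro s t hst
        simp only at hst
        split_ifs at hst with h2 h4 h4
        · rw [h2, h4]
        · have := t.2
          omega
        · have := s.2
          omega
        · exact Fin.ext hst
    · intro t
      refine Fin.cases ?_ (fun t => ?_) t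
      · rw [Fin.cons_zero, Fin.cons_zero]
        exact wv_lev hC hlev (j + 1)
      · rw [Fin.cons_succ, Fin.cons_succ]
        exact hy1 t
    · intro t
      refine Fin.cases ?_ (fun t => ?_) t
      · rw [Fin.cons_zero]
        exact (hL _ (by omega)).1
      · rw [Fin.cons_succ]
        exact hy1' t
  have hb1 : b = 1 := by
    have h2 := congrArg (fun z => ExteriorAlgebra.ι K (wv f w0 (j + 1)) * z) hb
    simp only [mul_smul_comm, mul_add, hz1, add_zero] at h2
    have h4 : (b - 1) • (ExteriorAlgebra.ι K (wv f w0 (j + 1)) *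
        ExteriorAlgebra.ιMulti K _ y1) = 0 := by
      rw [sub_smul, h2, one_smul, sub_self]
    exact sub_eq_zero.1 ((smul_eq_zero.1 h4).resolve_right hz2)
  rw [hb1, one_smul, add_eq_left] at hb
  refine ιMulti_ne (lev_li (h := h) (c := c) (μ := μ) (v := y2)
    (d := fun t : Fin (j + 2) => if t = a1 then j + 2 else if t = a0 then j + 1 else (t : ℕ))
    ?_ ?_ ?_) hb
  · intro s t hst
    simp only at hst
    split_ifs at hst with h2 h4 h5 h6 h7 h8 h9 h10
    · rw [h2, h4]
    · omega
    · have := hlt t h4 h5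
      omega
    · omega
    · rw [h6, h8]
    · have := hlt t h7 h8
      omega
    · have := hlt s h2 h6
      omega
    · have := hlt s h2 h6
      omega
    · exact Fin.ext hst
  · intro t
    change Function.update v1 a0 _ t ∈ _
    by_cases h2 : t = a1
    · rw [if_pos h2, h2, Function.update_of_ne ha01.symm, hv1']
      exact wv_lev hC hlev (j + 2)
    · rw [if_neg h2]
      by_cases h4 : t = a0
      · rw [if_pos h4, h4, Function.update_self]
        exact wv_lev hC hlev (j + 1)
      · rw [if_neg h4, Function.update_of_ne h4, hv1 t h2]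
        exact wv_lev hC hlev t
  · intro t
    change Function.update v1 a0 _ t ≠ _
    by_cases h4 : t = a0
    · rw [h4, Function.update_self]
      exact (hL _ (by omega)).1
    · rw [Function.update_of_ne h4]
      by_cases h2 : t = a1
      · rw [h2, hv1']
        exact (hL _ (by omega)).1
      · rw [hv1 t h2]
        exact (hL _ (by omega)).1

end gen

end Pool.Agent.Q50.EX
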