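import Pool.Agent.Q50.EX.Chn4
import Pool.Agent.Q50.SR.Rgd

/-!
# The chain of a Lie algebra which is irreducible on the exterior powers
-/

set_option linter.unusedSectionVars false
set_option maxHeartbeats 4000000
set_option synthInstance.maxHeartbeats 400000

namespace Pool.Agent.Q50.EX

open Module Pool.Agent.Q50.SR LieAlgebra LieModule

attribute [local instance 100] LieRing.ofAssociativeRing

section gen

variable {K W ι : Type} [Field K] [CharZero K] [IsAlgClosed K] [AddCommGroup W] [Module K W]
  [FiniteDimensional K W] [Fintype ι] [DecidableEq ι]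
  {e f h : ι → Module.End K W} {A : ι → ι → K} {c : ι → K}

/-- the chain of the generators -/
theorem chain_gen (hC : Chev e f h A c) (hirrW : Irr e f) (hm : 2 ≤ finrank K W)
    (hirr : ∀ k, 1 ≤ k → k ≤ finrank K W → IrrE e f k) :
    ∃ (w : ℕ → W) (l : ℕ → ι) (p : ℕ → K), Chain e f w l p (finrank K W) ∧
      (∀ j < finrank K W - 1, ∀ i, A (l j) i = (if l j = i then 2 * p j else 0) -
        (if 0 < j ∧ l (j - 1) = i then p (j - 1) else 0) -
        (if j + 1 < finrank K W - 1 ∧ l (j + 1) = i then p (j + 1) else 0)) ∧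
      ∀ j, j + 2 < finrank K W - 1 → l j ≠ l (j + 2) := by
  classical
  have hnt : Nontrivial W := Module.nontrivial_of_finrank_pos (R := K) (by omega)
  obtain ⟨μ, w0, σ, hw0, hlev, he0, hh0⟩ := exists_top hC
  have hL := fun k hk => levels hC hirrW hw0 hlev he0 hh0 hirr k hk
  have hlab := fun (k : ℕ) (hk : k + 1 < finrank K W) =>
    label hC hirrW hw0 hlev he0 hh0 hirr (k := k) hk
  obtain ⟨i0, -⟩ := hlab 0 (by omega)
  let l : ℕ → ι := fun k => if hk : k + 1 < finrank K W then (hlab k hk).choose else i0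
  have hl : ∀ k, k + 1 < finrank K W → f (l k) (wv f w0 k) = wv f w0 (k + 1) ∧
      ∀ i', i' ≠ l k → f i' (wv f w0 k) = 0 := by
    intro k hk
    have h1 : l k = (hlab k hk).choose := dif_pos hk
    rw [h1]
    exact (hlab k hk).choose_spec
  have hlast : ∀ i, f i (wv f w0 (finrank K W - 1)) = 0 := by
    intro i
    refine lev_last hC hirrW hw0 hlev he0 hh0 hirr (k := finrank K W) le_rfl ?_
    have h1 := hC.f_lev i (wv_lev hC hlev (finrank K W - 1))
    have h2 : ((finrank K W - 1 : ℕ) : ℤ) + 1 = ((finrank K W : ℕ) : ℤ) := by omega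
    rwa [h2] at h1
  have hew : ∀ (k : ℕ) (i : ι), k + 1 < finrank K W → ∃ b : K,
      e i (wv f w0 (k + 1)) = b • wv f w0 k := by
    intro k i hk
    refine (hL k (by omega)).2 _ ?_
    have h1 := hC.e_lev i (wv_lev hC hlev (k + 1))
    have h2 : ((k + 1 : ℕ) : ℤ) - 1 = ((k : ℕ) : ℤ) := by omega
    rwa [h2] at h1
  let lam : ℕ → ι → K := fun k j =>
    if hk : k < finrank K W then (hweight hC hirrW hw0 hlev he0 hh0 hirr hk j).choose else 0
  have hlam : ∀ k, k < finrank K W → ∀ j, h j (wv f w0 k) = lam k j • wv f w0 k := by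
    intro k hk j
    have h1 : lam k j = (hweight hC hirrW hw0 hlev he0 hh0 hirr hk j).choose := dif_pos hk
    rw [h1]
    exact (hweight hC hirrW hw0 hlev he0 hh0 hirr hk j).choose_spec
  have hrow : ∀ k, k + 1 < finrank K W → ∀ j, lam (k + 1) j = lam k j - A (l k) j := by
    intro k hk j
    have h1 : h j (f (l k) (wv f w0 k)) = (lam k j - A (l k) j) • wv f w0 (k + 1) := by
      rw [hC.hf', hlam k (by omega), map_smul, (hl k hk).1, sub_smul]
    rw [(hl k hk).1, hlam (k + 1) hk, ← sub_eq_zero, ← sub_smul] at h1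
    exact sub_eq_zero.1 ((smul_eq_zero.1 h1).resolve_right (hL (k + 1) hk).1)
  have hene : ∀ k, k + 1 < finrank K W → ∀ i, i ≠ l k → e i (wv f w0 (k + 1)) = 0 := by
    intro k hk i hi
    by_contra h0
    obtain ⟨b, hb⟩ := hew k i hk
    have hb0 : b ≠ 0 := by
      rintro rfl
      rw [zero_smul] at hb
      exact h0 hb
    apply hi
    refine hC.inj i (l k) fun j => ?_
    have h1 : h j (e i (wv f w0 (k + 1))) = (lam (k + 1) j + A i j) • e i (wv f w0 (k + 1)) := by
      rw [hC.he', hlam (k + 1) hk, map_smul, add_smul]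
    rw [hb, map_smul, hlam k (by omega), smul_smul, smul_smul, ← sub_eq_zero, ← sub_smul] at h1
    have h2 := (smul_eq_zero.1 h1).resolve_right (hL k (by omega)).1
    have h3 : b * (lam k j - (lam (k + 1) j + A i j)) = 0 := by linear_combination h2
    have h4 := (mul_eq_zero.1 h3).resolve_left hb0
    have h5 := hrow k hk j
    linear_combination -h4 - h5
  choose! p hp using fun (k : ℕ) (hk : k + 1 < finrank K W) => hew k (l k) hk
  have hpne : ∀ k, k + 1 < finrank K W → p k ≠ 0 := by
    intro k hk h0
    have h1 : ∀ i, e i (wv f w0 (k + 1)) = 0 := by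
      intro i
      by_cases hi : i = l k
      · rw [hi, hp k hk, h0, zero_smul]
      · exact hene k hk i hi
    have h2 := no_singular hC hirrW hw0 hlev (U := Submodule.span K {wv f w0 (k + 1)})
      (k := k + 1) (fun j x hx => by
        obtain ⟨a, rfl⟩ := Submodule.mem_span_singleton.1 hx
        rw [map_smul, hlam (k + 1) hk]
        exact Submodule.smul_mem _ _ (Submodule.smul_mem _ _
          (Submodule.mem_span_singleton_self _))) (fun j x hx => by
        obtain ⟨a, rfl⟩ := Submodule.mem_span_singleton.1 hx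
        rw [map_smul, h1, smul_zero]) (by omega) (by
        rw [Submodule.span_singleton_le_iff_mem]
        exact wv_lev hC hlev (k + 1))
    rw [Submodule.span_singleton_eq_bot] at h2
    exact (hL (k + 1) hk).1 h2
  have hli : LinearIndependent K fun j : Fin (finrank K W) => wv f w0 j :=
    lev_li (h := h) (c := c) (μ := μ) (d := fun t : Fin (finrank K W) => (t : ℕ))
      Fin.val_injective (fun t => wv_lev hC hlev t) fun t => (hL t t.2).1
  have hchain : Chain e f (wv f w0) l p (finrank K W) := by
    refine ⟨hli, ?_, fun j hj => (hl j hj).1, fun j hj => (hl j hj).2, hlast, hp, hene, ?_, hpne⟩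
    · exact hli.span_eq_top_of_card_eq_finrank' (Fintype.card_fin _)
    · intro i
      rw [wv_zero]
      exact he0 i
  -- the weights from the relations
  have hwt : ∀ j < finrank K W, ∀ i, lam j i =
      (if j + 1 < finrank K W ∧ l j = i then p j else 0) -
        (if 0 < j ∧ l (j - 1) = i then p (j - 1) else 0) := by
    intro j hj i
    have h1 := hC.efs i (wv f w0 j)
    rw [hlam j hj] at h1
    have h2 : e i (f i (wv f w0 j)) =
        (if j + 1 < finrank K W ∧ l j = i then p j else 0) • wv f w0 j := by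
      by_cases hj' : j + 1 < finrank K W
      · by_cases hi : l j = i
        · rw [if_pos ⟨hj', hi⟩, ← hi, (hl j hj').1, hp j hj']
        · rw [if_neg fun h => hi h.2, (hl j hj').2 i (Ne.symm hi), map_zero, zero_smul]
      · rw [if_neg fun h => hj' h.1, zero_smul]
        have h3 : j = finrank K W - 1 := by omega
        rw [h3, hlast, map_zero]
    have h3 : f i (e i (wv f w0 j)) =
        (if 0 < j ∧ l (j - 1) = i then p (j - 1) else 0) • wv f w0 j := by
      rcases Nat.eq_zero_or_pos j with rfl | hj0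
      · rw [if_neg fun h => lt_irrefl _ h.1, zero_smul, wv_zero, he0, map_zero]
      · obtain ⟨j', rfl⟩ : ∃ j', j = j' + 1 := ⟨j - 1, by omega⟩
        rw [Nat.add_sub_cancel]
        by_cases hi : l j' = i
        · rw [if_pos ⟨hj0, hi⟩, ← hi, hp j' hj, map_smul, (hl j' hj).1]
        · rw [if_neg fun h => hi h.2, hene j' hj i (Ne.symm hi), map_zero, zero_smul]
    rw [h2, h3, ← sub_eq_iff_eq_add', ← sub_smul, ← sub_eq_zero, ← sub_smul] at h1
    have h4 := (smul_eq_zero.1 h1).resolve_right (hL j hj).1
    linear_combination -h4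
  refine ⟨wv f w0, l, p, hchain, ?_, ?_⟩
  · intro j hj i
    have hj' : j + 1 < finrank K W := by omega
    have h1 := hrow j hj' i
    rw [hwt j (by omega) i, hwt (j + 1) hj' i] at h1
    have h2 : (0 < j + 1 ∧ l j = i) ↔ l j = i := ⟨fun h => h.2, fun h => ⟨by omega, h⟩⟩
    have h3 : (j + 1 < finrank K W ∧ l j = i) ↔ l j = i := ⟨fun h => h.2, fun h => ⟨hj', h⟩⟩
    have h4 : (j + 1 + 1 < finrank K W ∧ l (j + 1) = i) ↔
        (j + 1 < finrank K W - 1 ∧ l (j + 1) = i) :=
      and_congr_left fun _ => by omega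
    simp only [Nat.add_sub_cancel, h2, h3, h4] at h1
    by_cases hi : l j = i
    · simp only [if_pos hi] at h1 ⊢
      linear_combination h1
    · simp only [if_neg hi] at h1 ⊢
      linear_combination h1
  · intro j hj
    exact label_ne hC hirrW hw0 hlev he0 hh0 hirr (j := j) (by omega) (hl j (by omega)).1
      (hl j (by omega)).2 (hl (j + 2) (by omega)).1 (hl (j + 2) (by omega)).2

end gen

end Pool.Agent.Q50.EX
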