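import Pool.Agent.Q50.EX.Chn5

/-!
# The chain of a Lie algebra which is irreducible on the exterior powers, conclusion
-/

set_option linter.unusedSectionVars false
set_option maxHeartbeats 4000000
set_option synthInstance.maxHeartbeats 400000

namespace Pool.Agent.Q50.EX

open Module Pool.Agent.Q50.SR LieAlgebra LieModule

attribute [local instance 100] LieRing.ofAssociativeRing

theorem ι_mem_one {K W : Type*} [Field K] [AddCommGroup W] [Module K W] (w : W) :
    ExteriorAlgebra.ι K w ∈ ⋀[K]^1 W := by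
  have h1 := ιMulti_mem (F := K) 1 (fun _ : Fin 1 => w)
  rw [ExteriorAlgebra.ιMulti_succ_apply, ExteriorAlgebra.ιMulti_zero_apply, mul_one] at h1
  exact h1

theorem irr_of_irrOn {K W : Type*} [Field K] [AddCommGroup W] [Module K W]
    {L : Submodule K (Module.End K W)} (h : IrrOn L 1) (U : Submodule K W)
    (hU : ∀ x ∈ L, ∀ u ∈ U, x u ∈ U) : U = ⊥ ∨ U = ⊤ := by
  rcases h (U.map (ExteriorAlgebra.ι K)) (by
    rintro _ ⟨u, _, rfl⟩
    exact ι_mem_one u) (by
    rintro x hx _ ⟨u, hu, rfl⟩
    rw [D_ι]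
    exact ⟨x u, hU x hx u hu, rfl⟩) with h1 | h1
  · left
    rw [eq_bot_iff]
    intro u hu
    have h2 : ExteriorAlgebra.ι K u ∈ U.map (ExteriorAlgebra.ι K) := ⟨u, hu, rfl⟩
    rw [h1, Submodule.mem_bot] at h2
    have h3 : ExteriorAlgebra.ι K u = ExteriorAlgebra.ι K 0 := by rw [h2, map_zero]
    exact (Submodule.mem_bot K).2 ((ExteriorAlgebra.ι_inj K _ _).1 h3)
  · right
    rw [eq_top_iff]
    intro u _
    have h2 : ExteriorAlgebra.ι K u ∈ U.map (ExteriorAlgebra.ι K) := by
      rw [h1]
      exact ι_mem_one u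
    obtain ⟨u', hu', h3⟩ := h2
    rwa [(ExteriorAlgebra.ι_inj K _ _).1 h3] at hu'

/-- **The chain** of a Lie algebra of endomorphisms of trace zero which is irreducible on all
exterior powers. -/
theorem exists_chain {K W : Type} [Field K] [CharZero K] [IsAlgClosed K] [AddCommGroup W]
    [Module K W] [FiniteDimensional K W] (hm : 2 ≤ finrank K W)
    {L : Submodule K (Module.End K W)} (hL : ∀ x ∈ L, ∀ y ∈ L, x * y - y * x ∈ L)
    (htr : ∀ x ∈ L, LinearMap.trace K W x = 0)
    (hirr : ∀ k, 1 ≤ k → k < finrank K W → IrrOn L k) :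
    ∃ (ι : Type) (_ : DecidableEq ι) (e f : ι → Module.End K W) (w : ℕ → W) (l : ℕ → ι)
      (p : ℕ → K) (A : ι → ι → K), Chain e f w l p (finrank K W) ∧
      (∀ j < finrank K W - 1, ∀ i, A (l j) i = (if l j = i then 2 * p j else 0) -
        (if 0 < j ∧ l (j - 1) = i then p (j - 1) else 0) -
        (if j + 1 < finrank K W - 1 ∧ l (j + 1) = i then p (j + 1) else 0)) ∧
      (∀ j, j + 2 < finrank K W - 1 → l j ≠ l (j + 2)) ∧ (∀ i, A i i = 2) ∧ (∀ i, e i ∈ L) ∧
      (∀ i, f i ∈ L) ∧ ∀ L' : Submodule K (Module.End K W),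
        (∀ x ∈ L', ∀ y ∈ L', x * y - y * x ∈ L') → (∀ i, e i ∈ L') → (∀ i, f i ∈ L') →
        L ≤ L' := by
  classical
  have hnt : Nontrivial W := Module.nontrivial_of_finrank_pos (R := K) (by omega)
  let M := mkL L hL
  have hirr1 := irr_of_irrOn (hirr 1 le_rfl (by omega))
  have hirr' : LieModule.IsIrreducible K M W := by
    refine LieModule.IsIrreducible.mk fun N hN => ?_
    rcases hirr1 N.toSubmodule (fun x hx s hs => N.lie_mem (x := (⟨x, hx⟩ : M)) hs) with h1 | h1
    · exact absurd ((LieSubmodule.toSubmodule_eq_bot N).1 h1) hN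
    · exact (LieSubmodule.toSubmodule_eq_top N).1 h1
  have hfaith : LieModule.IsFaithful K M W := by
    refine ⟨fun x y hxy => Subtype.ext hxy⟩
  have htriv : HasTrivialRadical K M :=
    hasTrivialRadical_of_isIrreducible_of_isFaithful K M W fun x => htr x.1 x.2
  obtain ⟨ι, _, e, f, h, A, c, hc⟩ := exists_lchev K M
  have hC : Chev (fun i => (e i : Module.End K W)) (fun i => (f i : Module.End K W))
      (fun i => (h i : Module.End K W)) A c := by
    refine ⟨?_, ?_, ?_, ?_, ?_, hc.diag, hc.zero, hc.inj, hc.rho⟩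
    · intro i j
      exact sub_eq_zero.1 (congrArg Subtype.val (hc.hh i j))
    · intro i j
      exact congrArg Subtype.val (hc.he i j)
    · intro i j
      exact congrArg Subtype.val (hc.hf i j)
    · intro i
      exact congrArg Subtype.val (hc.ef i)
    · intro i j hij
      exact sub_eq_zero.1 (congrArg Subtype.val (hc.ef' i j hij))
  have hgen : ∀ L' : Submodule K (Module.End K W),
      (∀ x ∈ L', ∀ y ∈ L', x * y - y * x ∈ L') → (∀ i, (e i : Module.End K W) ∈ L') →
      (∀ i, (f i : Module.End K W) ∈ L') → L ≤ L' := by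
    intro L' h1 h2 h3 x hx
    have h4 : (⟨x, hx⟩ : M) ∈ LieSubalgebra.lieSpan K M (Set.range e ∪ Set.range f) := by
      rw [hc.gen]
      trivial
    have h5 : ∀ y : M, y ∈ LieSubalgebra.lieSpan K M (Set.range e ∪ Set.range f) →
        (y : Module.End K W) ∈ L' := by
      intro y hy
      induction hy using LieSubalgebra.lieSpan_induction with
      | mem u hu =>
        rcases hu with ⟨i, rfl⟩ | ⟨i, rfl⟩
        · exact h2 i
        · exact h3 i
      | zero => exact L'.zero_mem
      | add u v _ _ hu hv => exact L'.add_mem hu hv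
      | smul t u _ hu => exact L'.smul_mem t hu
      | lie u v _ _ hu hv => exact h1 _ hu _ hv
    exact h5 _ h4
  have hIrrE : ∀ k, 1 ≤ k → k ≤ finrank K W →
      IrrE (fun i => (e i : Module.End K W)) (fun i => (f i : Module.End K W)) k := by
    intro k hk1 hk2
    by_cases hk : k = finrank K W
    · rw [hk]
      exact irr_top _ _
    · intro U hU h1 h2
      refine hirr k hk1 (by omega) U hU ?_
      let L' : Submodule K (Module.End K W) :=
        { carrier := {x | ∀ ξ ∈ U, D x ξ ∈ U}
          zero_mem' := fun ξ hξ => by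
            rw [D_zero]
            exact U.zero_mem
          add_mem' := fun {x y} hx hy ξ hξ => by
            rw [D_add]
            exact U.add_mem (hx ξ hξ) (hy ξ hξ)
          smul_mem' := fun r x hx ξ hξ => by
            rw [D_smul]
            exact U.smul_mem r (hx ξ hξ) }
      have h3 : L ≤ L' := by
        refine hgen L' (fun x hx y hy ξ hξ => ?_) (fun i ξ hξ => h1 i ξ hξ) fun i ξ hξ => h2 i ξ hξ
        rw [D_bracket]
        exact U.sub_mem (hx _ (hy ξ hξ)) (hy _ (hx ξ hξ))
      exact fun x hx => h3 hx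
  have hI : Irr (fun i => (e i : Module.End K W)) (fun i => (f i : Module.End K W)) := by
    intro U h1 h2
    refine hirr1 U ?_
    let L' : Submodule K (Module.End K W) :=
      { carrier := {x | ∀ u ∈ U, x u ∈ U}
        zero_mem' := fun u hu => U.zero_mem
        add_mem' := fun {x y} hx hy u hu => U.add_mem (hx u hu) (hy u hu)
        smul_mem' := fun r x hx u hu => U.smul_mem r (hx u hu) }
    have h3 : L ≤ L' := hgen L' (fun x hx y hy u hu => U.sub_mem (hx _ (hy u hu)) (hy _ (hx u hu)))
      (fun i u hu => h1 i u hu) fun i u hu => h2 i u hu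
    exact fun x hx => h3 hx
  obtain ⟨w, l, p, h1, h2, h3⟩ := chain_gen hC hI hm hIrrE
  exact ⟨ι, inferInstance, _, _, w, l, p, A, h1, h2, h3, hc.diag, fun i => (e i).2,
    fun i => (f i).2, hgen⟩

end Pool.Agent.Q50.EX
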