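import Mathlib

/-!
# The derivations of the exterior algebra given by endomorphisms
-/

set_option linter.unusedSectionVars false
set_option maxHeartbeats 4000000
set_option synthInstance.maxHeartbeats 400000

namespace Pool.Agent.Q50.EX

open Module

variable {F : Type*} [CommRing F] {W : Type*} [AddCommGroup W] [Module F W]

/-- the homomorphism to the dual numbers given by an endomorphism -/
noncomputable def dh (z : Module.End F W) :
    ExteriorAlgebra F W →ₐ[F] TrivSqZeroExt (ExteriorAlgebra F W) (ExteriorAlgebra F W) :=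
  ExteriorAlgebra.lift F ⟨
    { toFun := fun w => TrivSqZeroExt.inl (ExteriorAlgebra.ι F w) +
        TrivSqZeroExt.inr (ExteriorAlgebra.ι F (z w))
      map_add' := fun v w => by
        refine TrivSqZeroExt.ext ?_ ?_ <;> simp
      map_smul' := fun r w => by
        refine TrivSqZeroExt.ext ?_ ?_ <;> simp }, fun w => by
    refine TrivSqZeroExt.ext ?_ ?_
    · simp
    · simp [ExteriorAlgebra.ι_add_mul_swap]⟩

theorem dh_ι (z : Module.End F W) (w : W) : dh z (ExteriorAlgebra.ι F w) =
    TrivSqZeroExt.inl (ExteriorAlgebra.ι F w) + TrivSqZeroExt.inr (ExteriorAlgebra.ι F (z w)) := by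
  unfold dh
  rw [ExteriorAlgebra.lift_ι_apply]
  rfl

theorem dh_fst (z : Module.End F W) (ξ : ExteriorAlgebra F W) : (dh z ξ).fst = ξ := by
  have h1 : (TrivSqZeroExt.fstHom F (ExteriorAlgebra F W) (ExteriorAlgebra F W)).comp (dh z) =
      AlgHom.id F _ := by
    refine ExteriorAlgebra.hom_ext ?_
    refine LinearMap.ext fun w => ?_
    change (dh z (ExteriorAlgebra.ι F w)).fst = ExteriorAlgebra.ι F w
    rw [dh_ι]
    simp
  exact congrArg (fun f => f ξ) h1

/-- the derivation of the exterior algebra given by an endomorphism -/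
noncomputable def D (z : Module.End F W) : Module.End F (ExteriorAlgebra F W) where
  toFun := fun ξ => (dh z ξ).snd
  map_add' := fun ξ η => by rw [map_add, TrivSqZeroExt.snd_add]
  map_smul' := fun r ξ => by rw [map_smul, TrivSqZeroExt.snd_smul, RingHom.id_apply]

theorem D_apply (z : Module.End F W) (ξ : ExteriorAlgebra F W) : D z ξ = (dh z ξ).snd := rfl

theorem D_ι (z : Module.End F W) (w : W) :
    D z (ExteriorAlgebra.ι F w) = ExteriorAlgebra.ι F (z w) := by
  rw [D_apply, dh_ι]
  simp

theorem D_mul (z : Module.End F W) (ξ η : ExteriorAlgebra F W) :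
    D z (ξ * η) = D z ξ * η + ξ * D z η := by
  rw [D_apply, map_mul, TrivSqZeroExt.snd_mul, dh_fst, dh_fst, D_apply, D_apply]
  simp only [smul_eq_mul, MulOpposite.smul_eq_mul_unop, MulOpposite.unop_op]
  rw [add_comm]

theorem D_one (z : Module.End F W) : D z 1 = 0 := by
  rw [D_apply, map_one, TrivSqZeroExt.snd_one]

theorem D_algebraMap (z : Module.End F W) (r : F) : D z (algebraMap F _ r) = 0 := by
  rw [Algebra.algebraMap_eq_smul_one, map_smul, D_one, smul_zero]

/-- uniqueness: a derivation is determined by its values on the vectors -/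
theorem der_unique {T T' : Module.End F (ExteriorAlgebra F W)}
    (h : ∀ ξ η, T (ξ * η) = T ξ * η + ξ * T η) (h' : ∀ ξ η, T' (ξ * η) = T' ξ * η + ξ * T' η)
    (hι : ∀ w, T (ExteriorAlgebra.ι F w) = T' (ExteriorAlgebra.ι F w)) : T = T' := by
  have h1 : ∀ (S : Module.End F (ExteriorAlgebra F W)),
      (∀ ξ η, S (ξ * η) = S ξ * η + ξ * S η) → S 1 = 0 := by
    intro S hS
    have h2 := hS 1 1
    rw [mul_one, mul_one, one_mul] at h2
    exact left_eq_add.1 h2
  refine LinearMap.ext fun ξ => ?_
  induction ξ using ExteriorAlgebra.induction with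
  | algebraMap r =>
    rw [Algebra.algebraMap_eq_smul_one, map_smul, map_smul, h1 T h, h1 T' h']
  | ι w => exact hι w
  | mul a b ha hb => rw [h, h', ha, hb]
  | add a b ha hb => rw [map_add, map_add, ha, hb]

theorem D_add (z z' : Module.End F W) : D (z + z') = D z + D z' := by
  refine der_unique (D_mul _) (fun ξ η => ?_) fun w => ?_
  · rw [LinearMap.add_apply, D_mul, D_mul, LinearMap.add_apply, LinearMap.add_apply, add_mul,
      mul_add]
    abel
  · rw [D_ι, LinearMap.add_apply, map_add, LinearMap.add_apply, D_ι, D_ι]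

theorem D_smul (r : F) (z : Module.End F W) : D (r • z) = r • D z := by
  refine der_unique (D_mul _) (fun ξ η => ?_) fun w => ?_
  · rw [LinearMap.smul_apply, D_mul, LinearMap.smul_apply, LinearMap.smul_apply, smul_add,
      smul_mul_assoc, mul_smul_comm]
  · rw [D_ι, LinearMap.smul_apply, map_smul, LinearMap.smul_apply, D_ι]

theorem D_zero : D (0 : Module.End F W) = 0 := by
  have h1 := D_smul (0 : F) (0 : Module.End F W)
  rwa [zero_smul, zero_smul] at h1

theorem D_neg (z : Module.End F W) : D (-z) = -D z := by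
  refine eq_neg_of_add_eq_zero_left ?_
  rw [← D_add, neg_add_cancel, D_zero]

theorem D_sub (z z' : Module.End F W) : D (z - z') = D z - D z' := by
  rw [sub_eq_add_neg, D_add, D_neg, ← sub_eq_add_neg]

/-- `D` is a homomorphism of Lie algebras -/
theorem D_bracket (z z' : Module.End F W) : D (z * z' - z' * z) = D z * D z' - D z' * D z := by
  refine der_unique (D_mul _) (fun ξ η => ?_) fun w => ?_
  · simp only [LinearMap.sub_apply, Module.End.mul_apply, D_mul, map_add, sub_mul, mul_sub]
    abel
  · rw [D_ι, LinearMap.sub_apply, Module.End.mul_apply, Module.End.mul_apply, map_sub,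
      LinearMap.sub_apply, Module.End.mul_apply, Module.End.mul_apply, D_ι, D_ι, D_ι, D_ι]

/-- `D` as a linear map -/
noncomputable def Dl : Module.End F W →ₗ[F] Module.End F (ExteriorAlgebra F W) where
  toFun := D
  map_add' := D_add
  map_smul' := D_smul

/-- the derivation of a product of vectors -/
theorem D_ιMulti (z : Module.End F W) {k : ℕ} (v : Fin k → W) :
    D z (ExteriorAlgebra.ιMulti F k v) =
      ∑ t, ExteriorAlgebra.ιMulti F k (Function.update v t (z (v t))) := by
  induction k with
  | zero =>
    rw [ExteriorAlgebra.ιMulti_zero_apply, D_one]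
    simp
  | succ k ih =>
    rw [ExteriorAlgebra.ιMulti_succ_apply, D_mul, D_ι, ih, Fin.sum_univ_succ, Finset.mul_sum]
    congr 1
    · rw [ExteriorAlgebra.ιMulti_succ_apply, Function.update_self]
      rfl
    · refine Finset.sum_congr rfl fun t _ => ?_
      rw [ExteriorAlgebra.ιMulti_succ_apply]
      congr 1
      congr 1
      funext s
      unfold Matrix.vecTail
      by_cases hs : s = t
      · rw [hs, Function.update_self, Function.comp_apply, Function.comp_apply,
          Function.update_self]
      · rw [Function.update_of_ne hs, Function.comp_apply, Function.comp_apply,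
          Function.update_of_ne fun h => hs (Fin.succ_injective _ h)]

theorem ιMulti_mem (k : ℕ) (v : Fin k → W) : ExteriorAlgebra.ιMulti F k v ∈ ⋀[F]^k W :=
  ExteriorAlgebra.ιMulti_range F k ⟨v, rfl⟩

theorem pow_span (k : ℕ) :
    Submodule.span F (Set.range (ExteriorAlgebra.ιMulti F k (M := W))) = ⋀[F]^k W :=
  exteriorPower.ιMulti_span_fixedDegree F k W

/-- the derivations respect the degree -/
theorem D_mem (z : Module.End F W) {k : ℕ} {ξ : ExteriorAlgebra F W} (hξ : ξ ∈ ⋀[F]^k W) :
    D z ξ ∈ ⋀[F]^k W := by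
  rw [← pow_span] at hξ
  induction hξ using Submodule.span_induction with
  | mem ξ h =>
    obtain ⟨v, rfl⟩ := h
    rw [D_ιMulti]
    exact Submodule.sum_mem _ fun t _ => ιMulti_mem k _
  | zero =>
    rw [map_zero]
    exact Submodule.zero_mem _
  | add x y _ _ hx hy =>
    rw [map_add]
    exact Submodule.add_mem _ hx hy
  | smul r x _ hx =>
    rw [map_smul]
    exact Submodule.smul_mem _ r hx

/-- the identity acts by the degree -/
theorem D_id {k : ℕ} {ξ : ExteriorAlgebra F W} (hξ : ξ ∈ ⋀[F]^k W) :
    D (1 : Module.End F W) ξ = (k : F) • ξ := by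
  rw [← pow_span] at hξ
  induction hξ using Submodule.span_induction with
  | mem ξ h =>
    obtain ⟨v, rfl⟩ := h
    rw [D_ιMulti]
    have h1 : ∀ t, Function.update v t ((1 : Module.End F W) (v t)) = v := fun t => by
      rw [Module.End.one_apply, Function.update_eq_self]
    simp only [h1, Finset.sum_const, Finset.card_univ, Fintype.card_fin]
    rw [Nat.cast_smul_eq_nsmul]
  | zero => rw [map_zero, smul_zero]
  | add x y _ _ hx hy => rw [map_add, hx, hy, smul_add]
  | smul r x _ hx => rw [map_smul, hx, smul_comm]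

/-- the endomorphisms in `L` act irreducibly on the exterior power of degree `k` -/
def IrrOn (L : Submodule F (Module.End F W)) (k : ℕ) : Prop :=
  ∀ U ≤ ⋀[F]^k W, (∀ x ∈ L, ∀ ξ ∈ U, D x ξ ∈ U) → U = ⊥ ∨ U = ⋀[F]^k W

end Pool.Agent.Q50.EX
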