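import Pool.Agent.Q50.EX.Asm4
import Pool.Agent.Q237.EX.J1
import Pool.Agent.Q61.EX.Ext2
import Pool.Agent.Q61.EX.Grp

/-!
# Minors and torsors: the theorem
-/

set_option linter.unusedSectionVars false
set_option maxHeartbeats 4000000
set_option synthInstance.maxHeartbeats 400000

namespace Pool.Agent.Q50.EX

open Module Pool.Agent.Q50.LR Pool.Agent.Q50.SR

/-- **Minors and torsors.** -/
theorem minors_and_torsors {K : Type} [Field K] [Algebra K ℂ] [IsAlgClosed K] {n e : ℕ}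
    {c : Fin n → Fin e} {P : GL (Fin n) ℂ} (hP : Respects c (P : Matrix (Fin n) (Fin n) ℂ))
    (hmin : ∀ σ, ∀ k, 1 ≤ k → 2 * k ≤ size c σ → IndependentMinors K k
      ((P : Matrix (Fin n) (Fin n) ℂ).toSquareBlock c σ))
    (hprod : ∀ σ τ, σ ≠ τ → size c σ = size c τ → 2 ≤ size c σ → IndependentProducts K
      ((P : Matrix (Fin n) (Fin n) ℂ).toSquareBlock c σ)
      ((P : Matrix (Fin n) (Fin n) ℂ).toSquareBlock c τ))
    (hodd : ∀ σ, Odd (size c σ) → 3 ≤ size c σ → ¬ IsSimilitude K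
      ((P : Matrix (Fin n) (Fin n) ℂ).toSquareBlock c σ))
    {H : Subgroup (GL (Fin n) ℂ)} (hH : IsAlgebraicGroup K H) (hPH : OnTorsor K H P) :
    ContainsColouredSL c H ∧
      (DeterminantsIndependent K c (P : Matrix (Fin n) (Fin n) ℂ) →
        ∀ g : GL (Fin n) ℂ, Respects c (g : Matrix (Fin n) (Fin n) ℂ) → g ∈ H) := by
  have hLC := sl_LC hP hH hPH hmin hprod hodd Pool.Agent.Q237.EX.s1 Pool.Agent.Q61.EX.s2b
  have hSL := Pool.Agent.Q61.EX.s10 K n e c H hH hLC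
  exact ⟨hSL, full_of_sl hP hH hPH hLC hSL⟩

end Pool.Agent.Q50.EX
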